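import Pool.Agent.Work.MP_46fa68_6.Fibre

/-!
# MP_46fa68_co, S4: the fibre data of a family at the cell `(0, 0)`
-/

set_option autoImplicit false

open Finset Equiv

namespace Pool.OS

open Pool.JM

variable {N t : ℕ}

/-- the permutation with mark `w` over `π` -/
def mk (w : Fin N) (π : Perm (Fin N)) : Perm (Fin (N + 1)) := Equiv.Perm.decomposeFin.symm (w.succ, π)

theorem inv_eq {n : ℕ} {σ : Perm (Fin n)} {x y : Fin n} (h : σ x = y) : σ⁻¹ y = x := by
  rw [← h, inv_ap]

theorem mk_inv_zero (w : Fin N) (π : Perm (Fin N)) : (mk w π)⁻¹ 0 = (π⁻¹ w).succ := by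
  apply inv_eq
  unfold mk
  rw [Equiv.Perm.decomposeFin_symm_apply_succ, ap_inv, swap_apply_right]

theorem mk_inv_mark (w : Fin N) (π : Perm (Fin N)) : (mk w π)⁻¹ w.succ = 0 := by
  apply inv_eq
  unfold mk
  rw [Equiv.Perm.decomposeFin_symm_apply_zero]

theorem mk_inv_succ {w b : Fin N} (π : Perm (Fin N)) (h : b ≠ w) :
    (mk w π)⁻¹ b.succ = (π⁻¹ b).succ := by
  apply inv_eq
  unfold mk
  rw [Equiv.Perm.decomposeFin_symm_apply_succ, ap_inv, swap_apply_of_ne_of_ne (Fin.succ_ne_zero b)]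
  intro h'
  exact h (Fin.succ_injective _ h')

theorem ext_inv_zero (π : Perm (Fin N)) : (ND.ext π)⁻¹ 0 = 0 := inv_eq (ND.ext_zero π)

theorem ext_inv_succ (π : Perm (Fin N)) (b : Fin N) : (ND.ext π)⁻¹ b.succ = (π⁻¹ b).succ := by
  apply inv_eq
  rw [ND.ext_succ, ap_inv]

/-- members through the cell -/
def Qs (A : Finset (Perm (Fin (N + 1)))) : Finset (Perm (Fin N)) := univ.filter fun π => ND.ext π ∈ A

/-- marks -/
def Ws (A : Finset (Perm (Fin (N + 1)))) (π : Perm (Fin N)) : Finset (Fin N) :=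
  univ.filter fun w => mk w π ∈ A

theorem fib (A : Finset (Perm (Fin (N + 1)))) (hA : ∀ σ ∈ A, ∀ τ ∈ A, t ≤ ag σ τ) :
    Fib t (Qs A) (Ws A) := by
  refine ⟨?_, ?_⟩
  · intro ν hν π w hw
    have h := hA _ (mem_filter.1 hν).2 _ (mem_filter.1 hw).2
    rw [ag_eq_cols] at h
    refine h.trans ?_
    unfold cols
    rw [Fin.card_filter_univ_succ, if_neg]
    · refine card_le_card ?_
      intro b hb
      have hb' : (ND.ext ν)⁻¹ b.succ = (mk w π)⁻¹ b.succ := by
        simpa using hb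
      have hbw : b ≠ w := by
        rintro rfl
        rw [ext_inv_succ, mk_inv_mark] at hb'
        exact Fin.succ_ne_zero _ hb'
      rw [ext_inv_succ, mk_inv_succ π hbw] at hb'
      exact mem_erase.2 ⟨hbw, mem_filter.2 ⟨mem_univ _, Fin.succ_injective _ hb'⟩⟩
    · rw [ext_inv_zero, mk_inv_zero]
      exact (Fin.succ_ne_zero _).symm
  · intro π π' w hw w' hw' hne
    have h := hA _ (mem_filter.1 hw).2 _ (mem_filter.1 hw').2
    rw [ag_eq_cols] at h
    refine h.trans ?_
    unfold cols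
    rw [Fin.card_filter_univ_succ]
    have h1 : (univ.filter fun b : Fin N => (mk w π)⁻¹ b.succ = (mk w' π')⁻¹ b.succ).card ≤
        (((univ.filter fun a : Fin N => π⁻¹ a = π'⁻¹ a).erase w).erase w').card := by
      refine card_le_card ?_
      intro b hb
      have hb' : (mk w π)⁻¹ b.succ = (mk w' π')⁻¹ b.succ := by
        simpa using hb
      have hbw : b ≠ w := by
        rintro rfl
        rw [mk_inv_mark, mk_inv_succ π' hne] at hb'
        exact Fin.succ_ne_zero _ hb'.symm
      have hbw' : b ≠ w' := by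
        rintro rfl
        rw [mk_inv_mark, mk_inv_succ π hne.symm] at hb'
        exact Fin.succ_ne_zero _ hb'
      rw [mk_inv_succ π hbw, mk_inv_succ π' hbw'] at hb'
      exact mem_erase.2 ⟨hbw', mem_erase.2 ⟨hbw, mem_filter.2
        ⟨mem_univ _, Fin.succ_injective _ hb'⟩⟩⟩
    rw [mk_inv_zero, mk_inv_zero]
    simp only [Fin.succ_inj]
    split_ifs with h2 <;> omega

theorem card_eq (A : Finset (Perm (Fin (N + 1)))) :
    A.card = (Qs A).card + ∑ π, (Ws A π).card := by
  classical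
  have h1 : A.card = (univ.filter fun x : Fin (N + 1) × Perm (Fin N) =>
      Equiv.Perm.decomposeFin.symm x ∈ A).card := by
    refine Finset.card_bij (fun σ _ => Equiv.Perm.decomposeFin σ) ?_ ?_ ?_
    · intro σ hσ
      refine mem_filter.2 ⟨mem_univ _, ?_⟩
      rwa [Equiv.symm_apply_apply]
    · intro σ _ τ _ h
      exact Equiv.Perm.decomposeFin.injective h
    · intro x hx
      exact ⟨_, (mem_filter.1 hx).2, Equiv.apply_symm_apply _ _⟩
  rw [h1, Finset.card_filter, Fintype.sum_prod_type_right]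
  have h2 : ∀ π : Perm (Fin N), (∑ p : Fin (N + 1),
      if Equiv.Perm.decomposeFin.symm (p, π) ∈ A then 1 else 0) =
      (if ND.ext π ∈ A then 1 else 0) + (Ws A π).card := by
    intro π
    rw [Fin.sum_univ_succ]
    unfold Ws
    rw [Finset.card_filter]
    rfl
  rw [Finset.sum_congr rfl fun π _ => h2 π, Finset.sum_add_distrib]
  unfold Qs
  rw [Finset.card_filter]

theorem card_Qs (A : Finset (Perm (Fin (N + 1)))) :
    (Qs A).card = (A.filter fun σ => σ 0 = 0).card := by
  classical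
  refine Finset.card_bij (fun π _ => ND.ext π) ?_ ?_ ?_
  · intro π hπ
    exact mem_filter.2 ⟨(mem_filter.1 hπ).2, ND.ext_zero π⟩
  · intro π _ ρ _ h
    ext k
    have := congrArg (fun f : Perm (Fin (N + 1)) => f k.succ) h
    simp only [ND.ext_succ, Fin.succ_inj] at this
    rw [this]
  · intro σ hσ
    obtain ⟨hσ1, hσ2⟩ := mem_filter.1 hσ
    obtain ⟨π, hπ⟩ := ND.exists_ext σ hσ2
    refine ⟨π, mem_filter.2 ⟨mem_univ _, ?_⟩, hπ⟩
    rw [hπ]
    exact hσ1

end Pool.OS
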