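import Pool.Agent.Work.MP_46fa68_6.Pairs

/-!
# MP_46fa68_co, S4: fibres of the compression at a cell

`A` in `S_(N+1)`, cell `(0, 0)`; the other members are `swap 0 (w+1) * ext π`, with the mark `w` (a column).
-/

set_option autoImplicit false

open Finset Equiv

namespace Pool.OS

open Pool.JM

variable {N : ℕ}

theorem ap_inv (g : Perm (Fin N)) (x : Fin N) : g (g⁻¹ x) = x := g.apply_symm_apply x

theorem inv_ap (g : Perm (Fin N)) (x : Fin N) : g⁻¹ (g x) = x := g.symm_apply_apply x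

/-- columns of agreement -/
def cols (π ρ : Perm (Fin N)) : Finset (Fin N) := univ.filter fun a => π⁻¹ a = ρ⁻¹ a

theorem mem_cols {π ρ : Perm (Fin N)} {a : Fin N} : a ∈ cols π ρ ↔ π⁻¹ a = ρ⁻¹ a := by
  unfold cols
  simp

theorem ag_eq_cols (π ρ : Perm (Fin N)) : ag π ρ = (cols π ρ).card := by
  unfold ag
  refine Finset.card_bij (fun i _ => π i) ?_ ?_ ?_
  · intro i hi
    have h : π i = ρ i := (mem_filter.1 hi).2
    rw [mem_cols, inv_ap, h, inv_ap]
  · intro i _ j _ h
    exact π.injective h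
  · intro a ha
    have h : π⁻¹ a = ρ⁻¹ a := mem_cols.1 ha
    refine ⟨π⁻¹ a, mem_filter.2 ⟨mem_univ _, ?_⟩, ap_inv _ _⟩
    rw [ap_inv, h, ap_inv]

/-- fibre data: `Q` = members through the cell, `W π` = marks -/
structure Fib (t : ℕ) (Q : Finset (Perm (Fin N))) (W : Perm (Fin N) → Finset (Fin N)) : Prop where
  hQ : ∀ ν ∈ Q, ∀ π, ∀ w ∈ W π, t ≤ ((cols ν π).erase w).card
  hW : ∀ π π', ∀ w ∈ W π, ∀ w' ∈ W π', w ≠ w' →
    t ≤ (((cols π π').erase w).erase w').card + (if π⁻¹ w = π'⁻¹ w' then 1 else 0)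

variable {t m : ℕ} {Q : Finset (Perm (Fin N))} {W : Perm (Fin N) → Finset (Fin N)}

theorem Fib.cross (h : Fib t Q W) {ν π : Perm (Fin N)} (hν : ν ∈ Q) (hπ : 1 ≤ (W π).card) :
    t ≤ ag ν π := by
  obtain ⟨w, hw⟩ := card_pos.1 hπ
  rw [ag_eq_cols]
  exact (h.hQ ν hν π w hw).trans (card_le_card (erase_subset _ _))

theorem Fib.three (h : Fib t Q W) {π π' : Perm (Fin N)} (hπ : 3 ≤ (W π).card)
    (hπ' : 1 ≤ (W π').card) : t ≤ ag π π' := by
  obtain ⟨w', hw'⟩ := card_pos.1 hπ'
  obtain ⟨w, hw⟩ : (((W π).erase w').erase (π (π'⁻¹ w'))).Nonempty := by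
    rw [← card_pos]
    have h1 := pred_card_le_card_erase (s := W π) (a := w')
    have h2 := pred_card_le_card_erase (s := (W π).erase w') (a := π (π'⁻¹ w'))
    omega
  obtain ⟨h1, h2⟩ := mem_erase.1 hw
  obtain ⟨h3, h4⟩ := mem_erase.1 h2
  have h5 := h.hW π π' w h4 w' hw' h3
  rw [if_neg, add_zero] at h5
  · rw [ag_eq_cols]
    exact h5.trans (card_le_card ((erase_subset _ _).trans (erase_subset _ _)))
  · intro h6
    apply h1
    rw [← h6, ap_inv]

theorem meet {E F : Finset (Fin N)} (h : N < E.card + F.card) : ∃ x, x ∈ E ∧ x ∈ F := by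
  by_contra hcon
  push Not at hcon
  have hd : Disjoint E F := disjoint_left.2 fun x hx hx' => hcon x hx hx'
  have := card_le_univ (E ∪ F)
  rw [card_union_of_disjoint hd, Fintype.card_fin] at this
  omega

theorem Fib.cross_big (h : Fib t Q W) (hN : N = m + t) {ν π : Perm (Fin N)} (hν : ν ∈ Q)
    (hπ : m + 1 ≤ (W π).card) : t + 1 ≤ ag ν π := by
  have h1 : t ≤ ag ν π := h.cross hν (by omega)
  rcases Nat.lt_or_ge t (ag ν π) with h2 | h2
  · exact h2
  · exfalso
    rw [ag_eq_cols] at h1 h2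
    obtain ⟨w, hw1, hw2⟩ := meet (E := W π) (F := cols ν π) (by omega)
    have h3 := h.hQ ν hν π w hw1
    rw [card_erase_of_mem hw2] at h3
    have h4 : 0 < (cols ν π).card := card_pos.2 ⟨w, hw2⟩
    omega

theorem Fib.self_big (h : Fib t Q W) (hN : N = m + t) (hm : 2 ≤ m) {π π' : Perm (Fin N)}
    (hπ : m + 1 ≤ (W π).card) (hπ' : m + 1 ≤ (W π').card) : t + 1 ≤ ag π π' := by
  have h1 : t ≤ ag π π' := h.three (by omega) (by omega)
  rcases Nat.lt_or_ge t (ag π π') with h2 | h2
  · exact h2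
  · exfalso
    rw [ag_eq_cols] at h1 h2
    obtain ⟨w, hw1, hw2⟩ := meet (E := W π) (F := cols π π') (by omega)
    obtain ⟨w', hw'⟩ : ((W π').erase w).Nonempty := by
      rw [← card_pos]
      have := pred_card_le_card_erase (s := W π') (a := w)
      omega
    obtain ⟨h3, h4⟩ := mem_erase.1 hw'
    have h5 := h.hW π π' w hw1 w' h4 (Ne.symm h3)
    rw [if_neg, add_zero] at h5
    · have h6 : (((cols π π').erase w).erase w').card ≤ ((cols π π').erase w).card :=
        card_le_card (erase_subset _ _)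
      rw [card_erase_of_mem hw2] at h6
      have h7 : 0 < (cols π π').card := card_pos.2 ⟨w, hw2⟩
      omega
    · rw [mem_cols.1 hw2]
      intro h6
      exact h3 ((π'⁻¹).injective h6).symm

/-- members with three or more marks -/
def B3 (W : Perm (Fin N) → Finset (Fin N)) : Finset (Perm (Fin N)) :=
  univ.filter fun π => 3 ≤ (W π).card

/-- members with one or two marks -/
def B2 (W : Perm (Fin N) → Finset (Fin N)) : Finset (Perm (Fin N)) :=
  univ.filter fun π => 1 ≤ (W π).card ∧ (W π).card ≤ 2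

/-- members with more than `m` marks -/
def Bp (m : ℕ) (W : Perm (Fin N) → Finset (Fin N)) : Finset (Perm (Fin N)) :=
  univ.filter fun π => m + 1 ≤ (W π).card

theorem sum_marks (hN : N = m + t) :
    ∑ π, (W π).card ≤ m * (B3 W).card + 2 * (B2 W).card + t * (Bp m W).card := by
  have h : ∀ π : Perm (Fin N), (W π).card ≤ (if 3 ≤ (W π).card then m else 0) +
      (if 1 ≤ (W π).card ∧ (W π).card ≤ 2 then 2 else 0) + (if m + 1 ≤ (W π).card then t else 0) := by
    intro π
    have h1 : (W π).card ≤ N := (card_le_univ _).trans (by rw [Fintype.card_fin])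
    split_ifs <;> omega
  refine (Finset.sum_le_sum fun π _ => h π).trans (le_of_eq ?_)
  rw [Finset.sum_add_distrib, Finset.sum_add_distrib]
  unfold B3 B2 Bp
  rw [← Finset.sum_filter, ← Finset.sum_filter, ← Finset.sum_filter, Finset.sum_const,
    Finset.sum_const, Finset.sum_const, smul_eq_mul, smul_eq_mul, smul_eq_mul]
  ring

end Pool.OS
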