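import Pool.Agent.Work.MP_46fa68_6.Cell
import Pool.Agent.Work.MP_46fa68_76.EndStmt

/-!
# MP_46fa68_co, S4: ONE-SIDED KERNEL => GAP (after helper44)
-/

set_option autoImplicit false

open Finset Equiv

namespace Pool.OS

open Pool.JM

variable {n m t M : ℕ} {a : Finset ℕ → ℝ} {w V g C X : ℝ}

theorem alg3 {q b2 F C : ℝ} (hq : 0 < q) (hF : 0 < F) (h : q * b2 ≤ C ^ 2 * F ^ 2) :
    b2 / F ≤ C ^ 2 / (q / F) := by
  rw [le_div_iff₀ (by positivity), div_mul_div_comm, div_le_iff₀ (by positivity)]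
  calc b2 * q = q * b2 := by ring
    _ ≤ _ := h
    _ = _ := by ring

theorem alg4 {q b3 b2 bp F m t w g X : ℝ} (hq : 0 < q) (hF : 0 < F) (hm : 0 < m) (ht : 0 ≤ t)
    (hg : 0 < g) (h : (b3 + 2 / m * b2) / F * (w ^ 2 + g * (q / F)) ≤ w ^ 2 * (w + g))
    (hp : q * bp ≤ X) :
    m * b3 + 2 * b2 + t * bp ≤ m * F * (w ^ 2 * (w + g) / (w ^ 2 + g * (q / F))) + t * (X / q) := by
  have bp' : bp ≤ X / q := by
    rw [le_div_iff₀ hq]
    linarith
  have h3 : m * (b3 + 2 / m * b2) = m * b3 + 2 * b2 := by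
    field_simp
  have hD : 0 < w ^ 2 + g * (q / F) := by positivity
  have hL : b3 + 2 / m * b2 ≤ F * (w ^ 2 * (w + g) / (w ^ 2 + g * (q / F))) := by
    rw [← mul_div_assoc, le_div_iff₀ hD]
    have h1 := mul_le_mul_of_nonneg_left h hF.le
    calc (b3 + 2 / m * b2) * (w ^ 2 + g * (q / F)) =
        F * ((b3 + 2 / m * b2) / F * (w ^ 2 + g * (q / F))) := by
            field_simp
      _ ≤ _ := h1
  rw [← h3]
  calc m * (b3 + 2 / m * b2) + t * bp ≤
      m * (F * (w ^ 2 * (w + g) / (w ^ 2 + g * (q / F)))) + t * (X / q) :=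
        add_le_add (mul_le_mul_of_nonneg_left hL hm.le) (mul_le_mul_of_nonneg_left bp' ht)
    _ = _ := by ring

theorem cell_zero (hN : n + 1 = m + t) (hm : m ≤ n) (hm2 : 2 ≤ m)
    (hK : Kern (n + 1) M m a w V) (hw : 0 ≤ w) (hg : 0 < g) (hgV : g * (V - 2 * w) ≤ w ^ 2)
    (hC1 : w ≤ C) (hC2 : V - w ≤ C) (hX : PB (n + 1) (t + 1) X)
    (A : Finset (Perm (Fin (n + 1 + 1)))) (hA : ∀ σ ∈ A, ∀ τ ∈ A, t ≤ ag σ τ)
    (hQ : 0 < (Qs A).card)
    (hcond : 2 / (m : ℝ) * (C ^ 2 / (((Qs A).card : ℝ) / m.factorial) + V + g) ≤ w + g) :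
    (A.card : ℝ) - (Qs A).card ≤
      m * m.factorial * (w ^ 2 * (w + g) / (w ^ 2 + g * (((Qs A).card : ℝ) / m.factorial))) +
        t * (X / (Qs A).card) := by
  have hF := fac_pos m
  have hf := fib A hA
  have hmt : n + 1 - m = t := by omega
  have hm0 : (0 : ℝ) < m := by exact_mod_cast (show 0 < m by omega)
  have hq : (0 : ℝ) < ((Qs A).card : ℝ) := by exact_mod_cast hQ
  have hr : (0 : ℝ) ≤ 2 / (m : ℝ) := div_nonneg zero_le_two hm0.le
  -- `B2`
  have b2 := two_sided hK hm hC1 hC2 (Qs A) (B2 (Ws A)) (by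
    rw [hmt]
    exact fun σ hσ τ hτ => hf.cross hσ (mem_filter.1 hτ).2.1)
  have b2' := alg3 hq hF b2
  -- the main inequality
  have hmain := main_ineq hK hm hw hg hgV hr (Qs A) (B3 (Ws A))
    (B2 (Ws A))
    (by rw [hmt]; exact fun σ hσ τ hτ => hf.cross hσ (by have := (mem_filter.1 hτ).2; omega))
    (by rw [hmt]; exact fun σ hσ τ hτ => hf.cross hσ (mem_filter.1 hτ).2.1)
    (by rw [hmt]; exact fun σ hσ τ hτ => hf.three (mem_filter.1 hσ).2
          (by have := (mem_filter.1 hτ).2; omega))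
    (by rw [hmt]; exact fun σ hσ τ hτ => hf.three (mem_filter.1 hσ).2 (mem_filter.1 hτ).2.1)
    (by
      rw [disjoint_left]
      intro σ h1 h2
      have h3 := (mem_filter.1 h1).2
      have h4 := (mem_filter.1 h2).2.2
      omega) hQ
    (by
      refine le_trans ?_ hcond
      have := mul_le_mul_of_nonneg_left b2' hr
      calc 2 / (m : ℝ) * (((B2 (Ws A)).card : ℝ) / m.factorial) + 2 / (m : ℝ) * (V + g) ≤
          2 / (m : ℝ) * (C ^ 2 / (((Qs A).card : ℝ) / m.factorial)) + 2 / (m : ℝ) * (V + g) := by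
            linarith
        _ = _ := by ring)
  -- `Bp`
  have bp := hX (Qs A) (Bp m (Ws A))
    (fun σ hσ τ hτ => hf.cross_big hN hσ (mem_filter.1 hτ).2)
    (fun σ hσ τ hτ => hf.self_big hN hm2 (mem_filter.1 hσ).2 (mem_filter.1 hτ).2)
  have hsum : (A.card : ℝ) - (Qs A).card ≤
      m * ((B3 (Ws A)).card : ℝ) + 2 * (B2 (Ws A)).card + t * (Bp m (Ws A)).card := by
    have h1 : (A.card : ℝ) = (Qs A).card + ((∑ π, (Ws A π).card : ℕ) : ℝ) := by
      exact_mod_cast card_eq A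
    have h2 : ((∑ π, (Ws A π).card : ℕ) : ℝ) ≤
        m * ((B3 (Ws A)).card : ℝ) + 2 * (B2 (Ws A)).card + t * (Bp m (Ws A)).card := by
      exact_mod_cast sum_marks hN
    rw [h1]
    linarith
  exact hsum.trans (alg4 hq hF hm0 (Nat.cast_nonneg _) hg hmain bp)

/-- move the cell `(x, y)` to `(0, 0)` -/
theorem exists_move {N : ℕ} (A : Finset (Perm (Fin (N + 1)))) (x y : Fin (N + 1)) :
    ∃ A' : Finset (Perm (Fin (N + 1))), A'.card = A.card ∧
      (Qs A').card = (A.filter fun σ => σ x = y).card ∧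
      ∀ t : ℕ, (∀ σ ∈ A, ∀ τ ∈ A, t ≤ ag σ τ) → ∀ σ ∈ A', ∀ τ ∈ A', t ≤ ag σ τ := by
  classical
  set φ : Perm (Fin (N + 1)) → Perm (Fin (N + 1)) := fun σ => swap 0 y * σ * swap 0 x with hφ
  have hinj : Function.Injective φ := fun a b hab => mul_left_cancel (mul_right_cancel hab)
  refine ⟨A.image φ, card_image_of_injective _ hinj, ?_, ?_⟩
  · rw [card_Qs, filter_image, card_image_of_injective _ hinj]
    congr 1
    refine filter_congr fun σ _ => ?_
    rw [hφ]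
    simp only [Perm.mul_apply, swap_apply_left]
    constructor
    · intro h
      have := congrArg (swap 0 y) h
      rwa [swap_apply_self, swap_apply_left] at this
    · intro h
      rw [h, swap_apply_right]
  · intro t h σ hσ τ hτ
    obtain ⟨σ', h1, rfl⟩ := mem_image.1 hσ
    obtain ⟨τ', h2, rfl⟩ := mem_image.1 hτ
    have := h σ' h1 τ' h2
    unfold ag at this ⊢
    rw [hφ]
    simp only
    rwa [ND.agr_mul]

/-- **the cell bound** -/
theorem cell_bound (hN : n + 1 = m + t) (hm : m ≤ n) (hm2 : 2 ≤ m)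
    (hK : Kern (n + 1) M m a w V) (hw : 0 ≤ w) (hg : 0 < g) (hgV : g * (V - 2 * w) ≤ w ^ 2)
    (hC1 : w ≤ C) (hC2 : V - w ≤ C) (hX : PB (n + 1) (t + 1) X)
    (A : Finset (Perm (Fin (n + 1 + 1)))) (hA : ∀ σ ∈ A, ∀ τ ∈ A, t ≤ ag σ τ)
    (x y : Fin (n + 1 + 1)) (hQ : 0 < (A.filter fun σ => σ x = y).card)
    (hcond : 2 / (m : ℝ) *
      (C ^ 2 / (((A.filter fun σ => σ x = y).card : ℝ) / m.factorial) + V + g) ≤ w + g) :
    (A.card : ℝ) - (A.filter fun σ => σ x = y).card ≤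
      m * m.factorial * (w ^ 2 * (w + g) /
        (w ^ 2 + g * (((A.filter fun σ => σ x = y).card : ℝ) / m.factorial))) +
        t * (X / (A.filter fun σ => σ x = y).card) := by
  obtain ⟨A', h1, h2, h3⟩ := exists_move A x y
  have := cell_zero hN hm hm2 hK hw hg hgV hC1 hC2 hX A' (h3 t hA) (by rw [h2]; exact hQ)
    (by rw [h2]; exact hcond)
  rwa [h1, h2] at this

/-- `1 / x` is convex -/
theorem inv_convex {u v s : ℝ} (hu : 0 < u) (hv : 0 < v) (hs : 0 ≤ s) (hs1 : s ≤ 1) :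
    1 / ((1 - s) * u + s * v) ≤ (1 - s) * (1 / u) + s * (1 / v) := by
  have hD : 0 < (1 - s) * u + s * v := by
    rcases eq_or_lt_of_le hs with h | h
    · rw [← h]; linarith
    · have := mul_pos h hv
      have := mul_nonneg (sub_nonneg.2 hs1) hu.le
      linarith
  have e : (1 - s) * (1 / u) + s * (1 / v) - 1 / ((1 - s) * u + s * v) =
      (s * (1 - s) * (u - v) ^ 2) / (u * v * ((1 - s) * u + s * v)) := by
    field_simp
    ring
  have h0 : 0 ≤ (s * (1 - s) * (u - v) ^ 2) / (u * v * ((1 - s) * u + s * v)) := by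
    have := mul_nonneg hs (sub_nonneg.2 hs1)
    positivity
  linarith

/-- the right side of the final inequality; `X` in units of `(m+1)!^2` -/
noncomputable def R (m t w g X θ p : ℝ) : ℝ :=
  m / (θ * (m + 1)) * (w ^ 2 * (w + g) / (w ^ 2 + g * (p * θ * (m + 1)))) + t * X / (p * θ ^ 2)

theorem R_convex {m t w g X θ p q s : ℝ} (hm : 0 ≤ m) (ht : 0 ≤ t) (hw : 0 ≤ w) (hg : 0 < g)
    (hX : 0 ≤ X) (hθ : 0 < θ) (hp : 0 < p) (hq : 0 < q) (hs : 0 ≤ s) (hs1 : s ≤ 1) :
    R m t w g X θ ((1 - s) * p + s * q) ≤ (1 - s) * R m t w g X θ p + s * R m t w g X θ q := by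
  have h1 : 0 < w ^ 2 + g * (p * θ * (m + 1)) := by positivity
  have h2 : 0 < w ^ 2 + g * (q * θ * (m + 1)) := by positivity
  have c1 := inv_convex h1 h2 hs hs1
  have c2 := inv_convex hp hq hs hs1
  have e1 : (1 - s) * (w ^ 2 + g * (p * θ * (m + 1))) + s * (w ^ 2 + g * (q * θ * (m + 1))) =
      w ^ 2 + g * (((1 - s) * p + s * q) * θ * (m + 1)) := by ring
  rw [e1] at c1
  have d1 := mul_le_mul_of_nonneg_left c1
    (by positivity : 0 ≤ m / (θ * (m + 1)) * (w ^ 2 * (w + g)))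
  have d2 := mul_le_mul_of_nonneg_left c2 (by positivity : 0 ≤ t * X / θ ^ 2)
  unfold R
  have f1 : ∀ u : ℝ, m / (θ * (m + 1)) * (w ^ 2 * (w + g) / u) =
      m / (θ * (m + 1)) * (w ^ 2 * (w + g)) * (1 / u) := fun u => by ring
  have f2 : ∀ u : ℝ, t * X / (u * θ ^ 2) = t * X / θ ^ 2 * (1 / u) := fun u => by
    rw [div_mul_div_comm, mul_one, mul_comm u]
  rw [f1, f1, f1, f2, f2, f2]
  linarith

/-- passing from the sizes to the densities -/
theorem alg5 {A q F m t w g X θ : ℝ} (hF : 0 < F) (hm : 0 ≤ m) (ht : 0 ≤ t) (hw : 0 ≤ w)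
    (hg : 0 < g) (hX : 0 ≤ X) (hθ : 0 < θ) (hq : 0 < q) (hA : θ * ((m + 1) * F) ≤ A)
    (h : A - q ≤ m * F * (w ^ 2 * (w + g) / (w ^ 2 + g * (q / F))) +
      t * (X * ((m + 1) * F) ^ 2 / q)) :
    1 - q / A ≤ R m t w g X θ (q / A) := by
  have hA0 : 0 < A := lt_of_lt_of_le (by positivity) hA
  obtain ⟨p, hp⟩ : ∃ p, p = q / A := ⟨_, rfl⟩
  have hq' : q = p * A := by rw [hp, div_mul_cancel₀ _ hA0.ne']
  have hp0 : 0 < p := by rw [hp]; positivity
  rw [← hp]
  have h1 : (1 - p) * A ≤ m * F * (w ^ 2 * (w + g) / (w ^ 2 + g * (q / F))) +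
      t * (X * ((m + 1) * F) ^ 2 / q) := by
    calc (1 - p) * A = A - q := by rw [hq']; ring
      _ ≤ _ := h
  have h2 : p * θ * (m + 1) ≤ q / F := by
    rw [le_div_iff₀ hF, hq']
    calc p * θ * (m + 1) * F = p * (θ * ((m + 1) * F)) := by ring
      _ ≤ _ := mul_le_mul_of_nonneg_left hA hp0.le
  have h3 : w ^ 2 * (w + g) / (w ^ 2 + g * (q / F)) ≤
      w ^ 2 * (w + g) / (w ^ 2 + g * (p * θ * (m + 1))) := by
    refine div_le_div_of_nonneg_left (by positivity) (by positivity) ?_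
    have := mul_le_mul_of_nonneg_left h2 hg.le
    linarith
  have h4 : m * F * (w ^ 2 * (w + g) / (w ^ 2 + g * (q / F))) ≤
      m / (θ * (m + 1)) * (w ^ 2 * (w + g) / (w ^ 2 + g * (p * θ * (m + 1)))) * A := by
    have e0 : 0 ≤ w ^ 2 * (w + g) / (w ^ 2 + g * (p * θ * (m + 1))) := by positivity
    calc m * F * (w ^ 2 * (w + g) / (w ^ 2 + g * (q / F))) ≤
        m * F * (w ^ 2 * (w + g) / (w ^ 2 + g * (p * θ * (m + 1)))) :=
          mul_le_mul_of_nonneg_left h3 (by positivity)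
      _ = m / (θ * (m + 1)) * (w ^ 2 * (w + g) / (w ^ 2 + g * (p * θ * (m + 1)))) *
          (θ * ((m + 1) * F)) := by
            field_simp
      _ ≤ _ := mul_le_mul_of_nonneg_left hA (by positivity)
  have h5 : t * (X * ((m + 1) * F) ^ 2 / q) ≤ t * X / (p * θ ^ 2) * A := by
    have e1 : ((m + 1) * F) ^ 2 ≤ (A / θ) ^ 2 := by
      refine pow_le_pow_left₀ (by positivity) ?_ 2
      rw [le_div_iff₀ hθ]
      linarith
    calc t * (X * ((m + 1) * F) ^ 2 / q) ≤ t * (X * (A / θ) ^ 2 / q) := by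
          refine mul_le_mul_of_nonneg_left ?_ ht
          exact div_le_div_of_nonneg_right (mul_le_mul_of_nonneg_left e1 hX) hq.le
      _ = _ := by
          rw [hq']
          field_simp
  have h6 : (1 - p) * A ≤ R m t w g X θ p * A := by
    unfold R
    rw [add_mul]
    linarith
  exact le_of_mul_le_mul_right h6 hA0

/-- **ONE-SIDED KERNEL ⟹ GAP.**  `(m, t)`, `N = m + t` the points of the kernel, families on `N + 1` points. -/
theorem gap_one (hN : n + 1 = m + t) (hm : m ≤ n) (hm2 : 2 ≤ m)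
    (hK : Kern (n + 1) M m a w V) (hw : 0 ≤ w) (hg : 0 < g) (hgV : g * (V - 2 * w) ≤ w ^ 2)
    (hC1 : w ≤ C) (hC2 : V - w ≤ C)
    (hX : PB (n + 1) (t + 1) (X * ((m + 1).factorial : ℝ) ^ 2)) (hX0 : 0 ≤ X)
    {θ β p : ℝ} (hθ : 0 < θ) (hβ : 0 < β)
    (hcond : 2 / (m : ℝ) * (C ^ 2 / (β * θ * (m + 1)) + V + g) ≤ w + g)
    (h1 : R m t w g X θ β < 1 - β) (h2 : R m t w g X θ p < 1 - p) :
    EG.Gap (n + 1 + 1) t θ β p := by
  intro A hA hcard x y
  by_contra hcon
  push Not at hcon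
  obtain ⟨c1, c2⟩ := hcon
  have hfm : (n + 1 + 1 - t).factorial = (m + 1).factorial := by
    congr 1
    omega
  rw [hfm] at hcard
  have hF := fac_pos m
  have hfac : (((m + 1).factorial : ℕ) : ℝ) = ((m : ℝ) + 1) * m.factorial := by
    rw [Nat.factorial_succ]
    push_cast
    ring
  have hA0 : (0 : ℝ) < (A.card : ℝ) := lt_of_lt_of_le (mul_pos hθ (fac_pos _)) hcard
  have hthr : EG.thr A x y = A.filter fun σ => σ x = y := rfl
  rw [hthr] at c1 c2
  have hq : (0 : ℝ) < ((A.filter fun σ => σ x = y).card : ℝ) := lt_of_le_of_lt (by positivity) c1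
  have hm0 : (0 : ℝ) < m := by exact_mod_cast (show 0 < m by omega)
  have key := cell_bound hN hm hm2 hK hw hg hgV hC1 hC2 hX A hA x y (by exact_mod_cast hq) (by
    refine le_trans ?_ hcond
    have e1 : β * θ * (m + 1) ≤ ((A.filter fun σ => σ x = y).card : ℝ) / m.factorial := by
      rw [le_div_iff₀ hF]
      calc β * θ * (m + 1) * m.factorial = β * (θ * ((m + 1).factorial : ℝ)) := by
            rw [hfac]; ring
        _ ≤ β * A.card := mul_le_mul_of_nonneg_left hcard hβ.le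
        _ ≤ _ := c1.le
    have e2 : C ^ 2 / (((A.filter fun σ => σ x = y).card : ℝ) / m.factorial) ≤
        C ^ 2 / (β * θ * (m + 1)) :=
      div_le_div_of_nonneg_left (sq_nonneg _) (mul_pos (mul_pos hβ hθ) (by linarith)) e1
    refine mul_le_mul_of_nonneg_left (by linarith) (div_nonneg zero_le_two hm0.le))
  rw [hfac] at key hcard
  have h3 := alg5 hF hm0.le (Nat.cast_nonneg t) hw hg hX0 hθ hq hcard key
  obtain ⟨r, hr⟩ : ∃ r, r = ((A.filter fun σ => σ x = y).card : ℝ) / A.card := ⟨_, rfl⟩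
  rw [← hr] at h3
  have hr1 : β < r := by rw [hr, lt_div_iff₀ hA0]; exact c1
  have hr2 : r < p := by rw [hr, div_lt_iff₀ hA0]; exact c2
  have hβp : β < p := hr1.trans hr2
  have hp : 0 < p := hβ.trans hβp
  obtain ⟨s, hs⟩ : ∃ s, s = (r - β) / (p - β) := ⟨_, rfl⟩
  have hs0 : 0 ≤ s := by rw [hs]; exact div_nonneg (by linarith) (by linarith)
  have hs1 : s ≤ 1 := by rw [hs, div_le_one (by linarith)]; linarith
  have hrs : (1 - s) * β + s * p = r := by
    have : s * (p - β) = r - β := by rw [hs, div_mul_cancel₀]; linarith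
    linarith
  have h4 := R_convex (m := (m : ℝ)) (t := (t : ℝ)) (w := w) (g := g) (X := X) (θ := θ) (p := β)
    (q := p) (s := s) hm0.le (Nat.cast_nonneg t) hw hg hX0 hθ hβ hp hs0 hs1
  rw [hrs] at h4
  have h5 : (1 - s) * R m t w g X θ β + s * R m t w g X θ p < (1 - s) * (1 - β) + s * (1 - p) := by
    rcases eq_or_lt_of_le hs0 with h6 | h6
    · rw [← h6]; linarith
    · have e1 := mul_lt_mul_of_pos_left h2 h6
      have e2 := mul_le_mul_of_nonneg_left h1.le (sub_nonneg.2 hs1)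
      linarith
  have h6 : (1 - s) * (1 - β) + s * (1 - p) = 1 - r := by
    rw [← hrs]; ring
  linarith

end Pool.OS
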