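import Pool.Agent.Work.MP_46fa68_28.Joint

/-!
# MP_46fa68_co, S4: one-sided kernel, linear algebra (after helper44)

`a` an eigenvalue function of `S_N`, harmonic down to the level `m`, level `m` values `w - [one row]`,
`0 ≤ a ≤ V`.  `Q` and `y ≥ 0` on `S_N`, every member of `Q` agrees in `N - m` places with every member of the
support of `y`.
-/

set_option autoImplicit false

open Finset Equiv

namespace Pool.OS

open Pool.JM

/-- one-sided kernel for the pair `(m, N - m)` -/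
structure Kern (N M m : ℕ) (a : Finset ℕ → ℝ) (w V : ℝ) : Prop where
  hM : N < M
  harm : Harm M m N a
  val : Val N M m a w 1
  nonneg : ∀ B ∈ Lv M N, 0 ≤ a B
  le : ∀ B ∈ Lv M N, a B ≤ V

variable {n m M : ℕ} {a : Finset ℕ → ℝ} {w V : ℝ}

/-- agreements -/
def ag {N : ℕ} (σ τ : Perm (Fin N)) : ℕ := (univ.filter fun i => σ i = τ i).card

theorem pair (hK : Kern (n + 1) M m a w V) (hm : m ≤ n) {σ τ : Perm (Fin (n + 1))}
    (h : n + 1 - m ≤ ag σ τ) :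
    G (n + 1) M a (n + 1) σ τ ≤ (if σ = τ then w else 0) - 1 / m.factorial :=
  pair_le hK.hM hm (Or.inr rfl) a w 1 hK.harm hK.val (fun h => by omega) h

/-- quadratic form of the kernel -/
noncomputable def qf (N M : ℕ) (a : Finset ℕ → ℝ) (x y : Perm (Fin N) → ℝ) : ℝ :=
  x ⬝ᵥ (G N M a N).mulVec y

theorem qf_eq (hM : n + 1 < M) (x y : Perm (Fin (n + 1)) → ℝ) :
    qf (n + 1) M a x y = ∑ B ∈ Lv M (n + 1), a B *
      ((P (n + 1) M (n + 1) B).mulVec x ⬝ᵥ (P (n + 1) M (n + 1) B).mulVec y) :=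
  quad_G' hM le_rfl a x y

theorem dot_nonneg {N : ℕ} (x : Perm (Fin N) → ℝ) : 0 ≤ x ⬝ᵥ x :=
  Finset.sum_nonneg fun _ _ => mul_self_nonneg _

theorem dot_eq (hM : n + 1 < M) (x y : Perm (Fin (n + 1)) → ℝ) :
    x ⬝ᵥ y = ∑ B ∈ Lv M (n + 1),
      ((P (n + 1) M (n + 1) B).mulVec x ⬝ᵥ (P (n + 1) M (n + 1) B).mulVec y) := by
  have h : ∀ B ∈ Lv M (n + 1), ((P (n + 1) M (n + 1) B).mulVec x ⬝ᵥ
      (P (n + 1) M (n + 1) B).mulVec y) = x ⬝ᵥ (P (n + 1) M (n + 1) B).mulVec y := fun B _ =>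
    (quad_P' hM le_rfl B x y).symm
  rw [Finset.sum_congr rfl h, ← dotProduct_sum, sum_P_mulVec hM le_rfl]

/-- bounds of the quadratic form -/
theorem qf_nonneg (hM : n + 1 < M) (h : ∀ B ∈ Lv M (n + 1), 0 ≤ a B)
    (x : Perm (Fin (n + 1)) → ℝ) : 0 ≤ qf (n + 1) M a x x := by
  rw [qf_eq hM]
  exact Finset.sum_nonneg fun B hB => mul_nonneg (h B hB) (dot_nonneg _)

theorem qf_le (hM : n + 1 < M) (h : ∀ B ∈ Lv M (n + 1), a B ≤ V)
    (x : Perm (Fin (n + 1)) → ℝ) : qf (n + 1) M a x x ≤ V * (x ⬝ᵥ x) := by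
  rw [qf_eq hM, dot_eq hM x x, Finset.mul_sum]
  exact Finset.sum_le_sum fun B hB => mul_le_mul_of_nonneg_right (h B hB) (dot_nonneg _)

/-- Cauchy-Schwarz over the isotypic components, weights `(w - a)^2 g ≤ c (a + g)` -/
theorem cs_gen (hM : n + 1 < M) (b r : Finset ℕ → ℝ) {c g : ℝ}
    (h : ∀ B ∈ Lv M (n + 1), g * b B ^ 2 ≤ c * r B) (hg : 0 < g)
    (x y : Perm (Fin (n + 1)) → ℝ) :
    g * (qf (n + 1) M b x y) ^ 2 ≤ c * (x ⬝ᵥ x) * qf (n + 1) M r y y := by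
  classical
  set p := fun B => (P (n + 1) M (n + 1) B).mulVec x with hp
  set q := fun B => (P (n + 1) M (n + 1) B).mulVec y with hq
  have e1 : qf (n + 1) M b x y = ∑ B ∈ Lv M (n + 1), b B * (p B ⬝ᵥ q B) := qf_eq hM x y
  have e2 : qf (n + 1) M r y y = ∑ B ∈ Lv M (n + 1), r B * (q B ⬝ᵥ q B) := qf_eq hM y y
  have e3 : x ⬝ᵥ x = ∑ B ∈ Lv M (n + 1), (p B ⬝ᵥ p B) := dot_eq hM x x
  have hcs1 : ∀ B, (p B ⬝ᵥ q B) ^ 2 ≤ (p B ⬝ᵥ p B) * (q B ⬝ᵥ q B) := by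
    intro B
    have := Finset.sum_mul_sq_le_sq_mul_sq (univ : Finset (Perm (Fin (n + 1)))) (p B) (q B)
    simp only [dotProduct]
    refine this.trans (le_of_eq ?_)
    simp only [sq]
  have hcs2 : (∑ B ∈ Lv M (n + 1), b B * (p B ⬝ᵥ q B)) ^ 2 ≤
      (∑ B ∈ Lv M (n + 1), (p B ⬝ᵥ p B)) * ∑ B ∈ Lv M (n + 1), b B ^ 2 * (q B ⬝ᵥ q B) := by
    refine Finset.sum_sq_le_sum_mul_sum_of_sq_le_mul _ (fun B _ => dot_nonneg _)
      (fun B _ => mul_nonneg (sq_nonneg _) (dot_nonneg _)) fun B _ => ?_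
    calc (b B * (p B ⬝ᵥ q B)) ^ 2 = b B ^ 2 * (p B ⬝ᵥ q B) ^ 2 := by ring
      _ ≤ b B ^ 2 * ((p B ⬝ᵥ p B) * (q B ⬝ᵥ q B)) :=
        mul_le_mul_of_nonneg_left (hcs1 B) (sq_nonneg _)
      _ = _ := by ring
  have h4 : g * ∑ B ∈ Lv M (n + 1), b B ^ 2 * (q B ⬝ᵥ q B) ≤
      c * ∑ B ∈ Lv M (n + 1), r B * (q B ⬝ᵥ q B) := by
    rw [Finset.mul_sum, Finset.mul_sum]
    refine Finset.sum_le_sum fun B hB => ?_
    have := mul_le_mul_of_nonneg_right (h B hB) (dot_nonneg (q B))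
    linarith
  rw [e1, e2, e3]
  have h5 : 0 ≤ ∑ B ∈ Lv M (n + 1), (p B ⬝ᵥ p B) := Finset.sum_nonneg fun B _ => dot_nonneg _
  calc g * (∑ B ∈ Lv M (n + 1), b B * (p B ⬝ᵥ q B)) ^ 2 ≤
      g * ((∑ B ∈ Lv M (n + 1), (p B ⬝ᵥ p B)) * ∑ B ∈ Lv M (n + 1), b B ^ 2 * (q B ⬝ᵥ q B)) :=
        mul_le_mul_of_nonneg_left hcs2 hg.le
    _ = (∑ B ∈ Lv M (n + 1), (p B ⬝ᵥ p B)) * (g * ∑ B ∈ Lv M (n + 1), b B ^ 2 * (q B ⬝ᵥ q B)) := by
        ring
    _ ≤ (∑ B ∈ Lv M (n + 1), (p B ⬝ᵥ p B)) * (c * ∑ B ∈ Lv M (n + 1), r B * (q B ⬝ᵥ q B)) :=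
        mul_le_mul_of_nonneg_left h4 h5
    _ = _ := by ring

theorem qf_const (hM : n + 1 < M) (c : ℝ) (x y : Perm (Fin (n + 1)) → ℝ) :
    qf (n + 1) M (fun _ => c) x y = c * (x ⬝ᵥ y) := by
  rw [qf_eq hM, dot_eq hM x y, Finset.mul_sum]

theorem qf_sub (hM : n + 1 < M) (a b : Finset ℕ → ℝ) (x y : Perm (Fin (n + 1)) → ℝ) :
    qf (n + 1) M (fun B => a B - b B) x y = qf (n + 1) M a x y - qf (n + 1) M b x y := by
  rw [qf_eq hM, qf_eq hM, qf_eq hM, ← Finset.sum_sub_distrib]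
  refine Finset.sum_congr rfl fun B _ => ?_
  ring

theorem qf_add (hM : n + 1 < M) (a b : Finset ℕ → ℝ) (x y : Perm (Fin (n + 1)) → ℝ) :
    qf (n + 1) M (fun B => a B + b B) x y = qf (n + 1) M a x y + qf (n + 1) M b x y := by
  rw [qf_eq hM, qf_eq hM, qf_eq hM, ← Finset.sum_add_distrib]
  refine Finset.sum_congr rfl fun B _ => ?_
  ring

theorem vec_dot {N : ℕ} (A B : Finset (Perm (Fin N))) : vec A ⬝ᵥ vec B = ((A ∩ B).card : ℝ) := by
  simp only [dotProduct, vec, mul_ite, mul_one, mul_zero]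
  rw [Finset.card_eq_sum_ones]
  push_cast
  rw [Finset.sum_ite, Finset.sum_const_zero, add_zero]
  have : (univ.filter fun σ => σ ∈ B) = B := by ext; simp
  rw [this, Finset.sum_ite, Finset.sum_const_zero, add_zero]
  congr 1
  ext σ
  simp [and_comm]

/-- cross form: `|Q||B| / m! ≤ ⟨Q, (w - K) B⟩` -/
theorem cross_le (hK : Kern (n + 1) M m a w V) (hm : m ≤ n) (Q B : Finset (Perm (Fin (n + 1))))
    (h : ∀ σ ∈ Q, ∀ τ ∈ B, n + 1 - m ≤ ag σ τ) :
    (Q.card : ℝ) * B.card / m.factorial ≤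
      qf (n + 1) M (fun B => w - a B) (vec Q) (vec B) := by
  have e : qf (n + 1) M (fun B => w - a B) (vec Q) (vec B) =
      w * ((Q ∩ B).card : ℝ) - qf (n + 1) M a (vec Q) (vec B) := by
    have := qf_sub hK.hM (fun _ => w) a (vec Q) (vec B)
    rw [this, qf_const hK.hM, vec_dot]
  have h1 : qf (n + 1) M a (vec Q) (vec B) ≤
      w * ((Q ∩ B).card : ℝ) - (Q.card : ℝ) * B.card / m.factorial := by
    unfold qf
    rw [vec_quad]
    calc ∑ σ ∈ Q, ∑ τ ∈ B, G (n + 1) M a (n + 1) σ τ ≤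
        ∑ σ ∈ Q, ∑ τ ∈ B, ((if σ = τ then w else 0) - 1 / m.factorial) :=
          Finset.sum_le_sum fun σ hσ => Finset.sum_le_sum fun τ hτ => pair hK hm (h σ hσ τ hτ)
      _ = _ := by
          simp only [Finset.sum_sub_distrib, Finset.sum_const, nsmul_eq_mul, Finset.sum_ite_eq]
          rw [Finset.sum_ite, Finset.sum_const_zero, add_zero, Finset.sum_const, nsmul_eq_mul,
            Finset.filter_mem_eq_inter]
          ring
  rw [e]
  linarith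

/-- self form -/
theorem self_le (hK : Kern (n + 1) M m a w V) (hm : m ≤ n) (B C : Finset (Perm (Fin (n + 1))))
    (h : ∀ σ ∈ B, ∀ τ ∈ C, n + 1 - m ≤ ag σ τ) :
    qf (n + 1) M a (vec B) (vec C) ≤
      w * ((B ∩ C).card : ℝ) - (B.card : ℝ) * C.card / m.factorial := by
  have := cross_le hK hm B C h
  have e : qf (n + 1) M (fun B => w - a B) (vec B) (vec C) =
      w * ((B ∩ C).card : ℝ) - qf (n + 1) M a (vec B) (vec C) := by
    have := qf_sub hK.hM (fun _ => w) a (vec B) (vec C)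
    rw [this, qf_const hK.hM, vec_dot]
  rw [e] at this
  linarith

theorem qf_add_right (a : Finset ℕ → ℝ) (c : ℝ)
    (x y z : Perm (Fin (n + 1)) → ℝ) :
    qf (n + 1) M a x (y + c • z) = qf (n + 1) M a x y + c * qf (n + 1) M a x z := by
  unfold qf
  rw [Matrix.mulVec_add, Matrix.mulVec_smul, dotProduct_add, dotProduct_smul, smul_eq_mul]

theorem qf_symm (hM : n + 1 < M) (a : Finset ℕ → ℝ) (x y : Perm (Fin (n + 1)) → ℝ) :
    qf (n + 1) M a x y = qf (n + 1) M a y x := by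
  rw [qf_eq hM, qf_eq hM]
  refine Finset.sum_congr rfl fun B _ => ?_
  rw [dotProduct_comm]

theorem qf_sq (hM : n + 1 < M) (a : Finset ℕ → ℝ) (c : ℝ) (y z : Perm (Fin (n + 1)) → ℝ) :
    qf (n + 1) M a (y + c • z) (y + c • z) =
      qf (n + 1) M a y y + 2 * c * qf (n + 1) M a y z + c ^ 2 * qf (n + 1) M a z z := by
  rw [qf_add_right, qf_symm hM a (y + c • z) y, qf_symm hM a (y + c • z) z,
    qf_add_right, qf_add_right, qf_symm hM a z y]
  ring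

theorem fac_pos (m : ℕ) : (0 : ℝ) < m.factorial := by exact_mod_cast m.factorial_pos

/-- two-sided bound -/
theorem two_sided (hK : Kern (n + 1) M m a w V) (hm : m ≤ n) {C : ℝ} (hC1 : w ≤ C)
    (hC2 : V - w ≤ C) (Q B : Finset (Perm (Fin (n + 1))))
    (h : ∀ σ ∈ Q, ∀ τ ∈ B, n + 1 - m ≤ ag σ τ) :
    (Q.card : ℝ) * B.card ≤ C ^ 2 * (m.factorial : ℝ) ^ 2 := by
  have hF := fac_pos m
  have h1 := cross_le hK hm Q B h
  have h2 := cs_gen hK.hM (fun B => w - a B) (fun _ => 1) (c := C ^ 2) (g := 1)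
    (fun B hB => by
      have h3 := hK.nonneg B hB
      have h4 := hK.le B hB
      rw [one_mul, mul_one]
      exact sq_le_sq' (by linarith) (by linarith)) one_pos (vec Q) (vec B)
  rw [qf_const hK.hM, vec_dot, vec_dot, inter_self, inter_self, one_mul, one_mul] at h2
  set q : ℝ := (Q.card : ℝ) with hq
  set b : ℝ := (B.card : ℝ) with hb
  have hq0 : 0 ≤ q := Nat.cast_nonneg _
  have hb0 : 0 ≤ b := Nat.cast_nonneg _
  have h0 : 0 ≤ q * b / m.factorial := by positivity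
  have h5 : (q * b / m.factorial) ^ 2 ≤ C ^ 2 * q * b :=
    (pow_le_pow_left₀ h0 h1 2).trans h2
  rcases eq_or_lt_of_le (mul_nonneg hq0 hb0) with h6 | h6
  · rw [← h6]
    positivity
  · rw [div_pow, div_le_iff₀ (by positivity)] at h5
    have h7 : (q * b) * (q * b) ≤ (q * b) * (C ^ 2 * (m.factorial : ℝ) ^ 2) := by
      calc (q * b) * (q * b) = (q * b) ^ 2 := by ring
        _ ≤ _ := h5
        _ = _ := by ring
    exact le_of_mul_le_mul_left h7 h6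

/-- algebra of `main_ineq` in units of `F` -/
theorem alg1 {k x3 x2 w g r V : ℝ} (hg : 0 < g) (hr : 0 ≤ r) (h3 : 0 ≤ x3)
    (h2 : 0 ≤ x2) (hw : 0 ≤ w)
    (h : g * k * (x3 + r * x2) ^ 2 ≤
      w ^ 2 * ((w + g) * x3 - x3 ^ 2 - 2 * r * (x3 * x2) + r ^ 2 * ((V + g) * x2)))
    (hc : r * x2 + r * (V + g) ≤ w + g) :
    (x3 + r * x2) * (w ^ 2 + g * k) ≤ w ^ 2 * (w + g) := by
  have hL0 : 0 ≤ x3 + r * x2 := by positivity
  have k5 : r * x2 * (r * x2 + r * (V + g) - (w + g)) ≤ 0 :=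
    mul_nonpos_of_nonneg_of_nonpos (by positivity) (by linarith)
  have k5' : (w + g) * x3 - x3 ^ 2 - 2 * r * (x3 * x2) + r ^ 2 * ((V + g) * x2) ≤
      (w + g) * (x3 + r * x2) - (x3 + r * x2) ^ 2 := by
    have e : (w + g) * x3 - x3 ^ 2 - 2 * r * (x3 * x2) + r ^ 2 * ((V + g) * x2) =
        (w + g) * (x3 + r * x2) - (x3 + r * x2) ^ 2 +
          r * x2 * (r * x2 + r * (V + g) - (w + g)) := by ring
    rw [e]
    linarith
  have k6 : g * k * (x3 + r * x2) ^ 2 ≤ w ^ 2 * ((w + g) * (x3 + r * x2) - (x3 + r * x2) ^ 2) :=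
    h.trans (mul_le_mul_of_nonneg_left k5' (sq_nonneg w))
  rcases eq_or_lt_of_le hL0 with h9 | h9
  · rw [← h9, zero_mul]
    positivity
  · have k7 : (x3 + r * x2) * ((x3 + r * x2) * (w ^ 2 + g * k)) ≤
        (x3 + r * x2) * (w ^ 2 * (w + g)) := by
      have e1 : (x3 + r * x2) * ((x3 + r * x2) * (w ^ 2 + g * k)) =
          g * k * (x3 + r * x2) ^ 2 + w ^ 2 * (x3 + r * x2) ^ 2 := by ring
      have e2 : (x3 + r * x2) * (w ^ 2 * (w + g)) =
          w ^ 2 * ((w + g) * (x3 + r * x2) - (x3 + r * x2) ^ 2) + w ^ 2 * (x3 + r * x2) ^ 2 := by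
        ring
      rw [e1, e2]
      linarith
    exact le_of_mul_le_mul_left k7 h9

theorem alg2 {q b3 b2 F w g r V : ℝ} (hF : 0 < F) (hg : 0 < g) (hr : 0 ≤ r) (hq : 0 < q)
    (h3 : 0 ≤ b3) (h2 : 0 ≤ b2) (hw : 0 ≤ w)
    (h : g * (q * (b3 + r * b2) / F) ^ 2 ≤ w ^ 2 * q *
      ((w + g) * b3 - b3 ^ 2 / F - 2 * r * (b3 * b2 / F) + r ^ 2 * ((V + g) * b2)))
    (hc : r * (b2 / F) + r * (V + g) ≤ w + g) :
    (b3 + r * b2) / F * (w ^ 2 + g * (q / F)) ≤ w ^ 2 * (w + g) := by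
  obtain ⟨x3, hx3⟩ : ∃ x3, x3 = b3 / F := ⟨_, rfl⟩
  obtain ⟨x2, hx2⟩ : ∃ x2, x2 = b2 / F := ⟨_, rfl⟩
  obtain ⟨k, hk⟩ : ∃ k, k = q / F := ⟨_, rfl⟩
  have e3 : b3 = x3 * F := by rw [hx3, div_mul_cancel₀ _ hF.ne']
  have e2 : b2 = x2 * F := by rw [hx2, div_mul_cancel₀ _ hF.ne']
  have ek : q = k * F := by rw [hk, div_mul_cancel₀ _ hF.ne']
  have hk0 : 0 < k := by rw [hk]; positivity
  have hx30 : 0 ≤ x3 := by rw [hx3]; positivity
  have hx20 : 0 ≤ x2 := by rw [hx2]; positivity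
  rw [← hx2] at hc
  have t1 : g * (q * (b3 + r * b2) / F) ^ 2 = k * F ^ 2 * (g * k * (x3 + r * x2) ^ 2) := by
    rw [e3, e2, ek]
    have : k * F * (x3 * F + r * (x2 * F)) / F = k * F * (x3 + r * x2) := by
      rw [div_eq_iff hF.ne']; ring
    rw [this]
    ring
  have t2 : w ^ 2 * q *
      ((w + g) * b3 - b3 ^ 2 / F - 2 * r * (b3 * b2 / F) + r ^ 2 * ((V + g) * b2)) =
      k * F ^ 2 *
    (w ^ 2 * ((w + g) * x3 - x3 ^ 2 - 2 * r * (x3 * x2) + r ^ 2 * ((V + g) * x2))) := by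
    rw [e3, e2, ek]
    have u1 : (x3 * F) ^ 2 / F = x3 ^ 2 * F := by rw [div_eq_iff hF.ne']; ring
    have u2 : x3 * F * (x2 * F) / F = x3 * x2 * F := by rw [div_eq_iff hF.ne']; ring
    rw [u1, u2]
    ring
  rw [t1, t2] at h
  have k4 := le_of_mul_le_mul_left h (by positivity)
  have hL : (b3 + r * b2) / F = x3 + r * x2 := by
    rw [hx3, hx2]
    ring
  rw [hL, ← hk]
  exact alg1 hg hr hx30 hx20 hw k4 hc

/-- **the inequality for `Q` and the weight `1` on `B3`, `r` on `B2`** -/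
theorem main_ineq (hK : Kern (n + 1) M m a w V) (hm : m ≤ n) (hw : 0 ≤ w) {g r : ℝ} (hg : 0 < g)
    (hgV : g * (V - 2 * w) ≤ w ^ 2) (hr : 0 ≤ r) (Q B3 B2 : Finset (Perm (Fin (n + 1))))
    (h3 : ∀ σ ∈ Q, ∀ τ ∈ B3, n + 1 - m ≤ ag σ τ) (h2 : ∀ σ ∈ Q, ∀ τ ∈ B2, n + 1 - m ≤ ag σ τ)
    (h33 : ∀ σ ∈ B3, ∀ τ ∈ B3, n + 1 - m ≤ ag σ τ) (h32 : ∀ σ ∈ B3, ∀ τ ∈ B2, n + 1 - m ≤ ag σ τ)
    (hdisj : Disjoint B3 B2) (hQ : 0 < Q.card)
    (hcond : r * ((B2.card : ℝ) / m.factorial) + r * (V + g) ≤ w + g) :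
    ((B3.card : ℝ) + r * B2.card) / m.factorial * (w ^ 2 + g * ((Q.card : ℝ) / m.factorial)) ≤
      w ^ 2 * (w + g) := by
  have hF := fac_pos m
  have hq0 : (0 : ℝ) < (Q.card : ℝ) := by exact_mod_cast hQ
  have hM := hK.hM
  refine alg2 hF hg hr hq0 (Nat.cast_nonneg _) (Nat.cast_nonneg _) hw ?_ hcond
  -- left side
  have l1 := cross_le hK hm Q B3 h3
  have l2 := cross_le hK hm Q B2 h2
  have l3 : (Q.card : ℝ) * ((B3.card : ℝ) + r * B2.card) / m.factorial ≤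
      qf (n + 1) M (fun B => w - a B) (vec Q) (vec B3 + r • vec B2) := by
    rw [qf_add_right]
    have := mul_le_mul_of_nonneg_left l2 hr
    calc (Q.card : ℝ) * ((B3.card : ℝ) + r * B2.card) / m.factorial =
        (Q.card : ℝ) * B3.card / m.factorial + r * ((Q.card : ℝ) * B2.card / m.factorial) := by ring
      _ ≤ _ := add_le_add l1 this
  -- Cauchy-Schwarz
  have cs := cs_gen hM (fun B => w - a B) (fun B => a B + g) (c := w ^ 2) (g := g)
    (fun B hB => by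
      have e1 := hK.nonneg B hB
      have e2 := hK.le B hB
      have e3 : 0 ≤ a B * (w ^ 2 - g * (V - 2 * w)) := mul_nonneg e1 (by linarith)
      have e4 : 0 ≤ g * (a B * (V - a B)) := mul_nonneg hg.le (mul_nonneg e1 (by linarith))
      have e5 : w ^ 2 * (a B + g) - g * (w - a B) ^ 2 =
          a B * (w ^ 2 - g * (V - 2 * w)) + g * (a B * (V - a B)) := by ring
      show g * (w - a B) ^ 2 ≤ w ^ 2 * (a B + g)
      linarith) hg (vec Q) (vec B3 + r • vec B2)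
  rw [vec_dot, inter_self] at cs
  -- right side
  have r1 : qf (n + 1) M (fun B => a B + g) (vec B3 + r • vec B2) (vec B3 + r • vec B2) ≤
      (w + g) * B3.card - (B3.card : ℝ) ^ 2 / m.factorial
        - 2 * r * ((B3.card : ℝ) * B2.card / m.factorial) + r ^ 2 * ((V + g) * B2.card) := by
    have e0 : qf (n + 1) M (fun B => a B + g) (vec B3 + r • vec B2) (vec B3 + r • vec B2) =
        qf (n + 1) M a (vec B3 + r • vec B2) (vec B3 + r • vec B2) +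
          g * ((vec B3 + r • vec B2) ⬝ᵥ (vec B3 + r • vec B2)) := by
      rw [qf_add hM a (fun _ => g), qf_const hM]
    have e1 := qf_sq hM a r (vec B3) (vec B2)
    have e2 := self_le hK hm B3 B3 h33
    have e3 := self_le hK hm B3 B2 h32
    have e4 := qf_le hM hK.le (vec B2)
    rw [inter_self] at e2
    rw [disjoint_iff_inter_eq_empty.1 hdisj, card_empty, Nat.cast_zero, mul_zero, zero_sub] at e3
    rw [vec_dot, inter_self] at e4
    have e5 : (vec B3 + r • vec B2) ⬝ᵥ (vec B3 + r • vec B2) =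
        (B3.card : ℝ) + r ^ 2 * B2.card := by
      have h := qf_const hM 1 (vec B3 + r • vec B2) (vec B3 + r • vec B2)
      have h' := qf_sq hM (fun _ => 1) r (vec B3) (vec B2)
      rw [one_mul] at h
      rw [← h, h', qf_const hM, qf_const hM, qf_const hM, vec_dot, vec_dot, vec_dot,
        inter_self, inter_self, disjoint_iff_inter_eq_empty.1 hdisj, card_empty, Nat.cast_zero]
      ring
    rw [e0, e5, e1]
    have e6 := mul_le_mul_of_nonneg_left e3 (by positivity : (0 : ℝ) ≤ 2 * r)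
    have e7 := mul_le_mul_of_nonneg_left e4 (by positivity : (0 : ℝ) ≤ r ^ 2)
    have e8 : (B3.card : ℝ) * B3.card / m.factorial = (B3.card : ℝ) ^ 2 / m.factorial := by ring
    rw [e8] at e2
    linarith
  have h0 : 0 ≤ (Q.card : ℝ) * ((B3.card : ℝ) + r * B2.card) / m.factorial := by positivity
  have k1 : g * ((Q.card : ℝ) * ((B3.card : ℝ) + r * B2.card) / m.factorial) ^ 2 ≤
      w ^ 2 * Q.card * qf (n + 1) M (fun B => a B + g) (vec B3 + r • vec B2)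
        (vec B3 + r • vec B2) :=
    (mul_le_mul_of_nonneg_left (pow_le_pow_left₀ h0 l3 2) hg.le).trans cs
  exact k1.trans (mul_le_mul_of_nonneg_left r1 (by positivity))

end Pool.OS
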