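import Pool.Agent.Work.MP_46fa68_6.OneSided
import Pool.Agent.Work.MP_46fa68_85.NearDiag

/-!
# MP_46fa68_co, S4: product bounds for pairs of families, one cell at a time
-/

set_option autoImplicit false

open Finset Equiv

namespace Pool.OS

open Pool.JM

/-- `|Q||B| ≤ X` whenever `B` is `s`-intersecting and cross `s`-intersecting with `Q` -/
def PB (N s : ℕ) (X : ℝ) : Prop :=
  ∀ Q B : Finset (Perm (Fin N)), (∀ σ ∈ Q, ∀ τ ∈ B, s ≤ ag σ τ) → (∀ σ ∈ B, ∀ τ ∈ B, s ≤ ag σ τ) →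
    (Q.card : ℝ) * B.card ≤ X

/-- the product bound from a one-sided kernel -/
theorem PB_of_kern {n m M : ℕ} {a : Finset ℕ → ℝ} {w V g : ℝ} (hK : Kern (n + 1) M m a w V)
    (hm : m ≤ n) (hw : 0 ≤ w) (hg : 0 < g) (hgV : g * (V - 2 * w) ≤ w ^ 2) :
    PB (n + 1) (n + 1 - m) (w ^ 2 * (w + g) / g * (m.factorial : ℝ) ^ 2) := by
  intro Q B h1 h2
  have hF := fac_pos m
  rcases Nat.eq_zero_or_pos Q.card with h0 | h0
  · rw [h0, Nat.cast_zero, zero_mul]
    positivity
  have h := main_ineq hK hm hw hg hgV le_rfl Q B ∅ h1 (by simp) h2 (by simp) (by simp) h0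
    (by simp; positivity)
  rw [zero_mul, add_zero] at h
  set q : ℝ := (Q.card : ℝ) with hq
  set b : ℝ := (B.card : ℝ) with hb
  have hq0 : 0 ≤ q := Nat.cast_nonneg _
  have hb0 : 0 ≤ b := Nat.cast_nonneg _
  have h3 : b / m.factorial * (g * (q / m.factorial)) ≤ w ^ 2 * (w + g) := by
    refine le_trans ?_ h
    refine mul_le_mul_of_nonneg_left ?_ (by positivity)
    have := sq_nonneg w
    linarith
  have h4 : b / m.factorial * (g * (q / m.factorial)) = g * (q * b) / (m.factorial : ℝ) ^ 2 := by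
    rw [sq]
    field_simp
  rw [h4, div_le_iff₀ (by positivity)] at h3
  rw [div_mul_eq_mul_div, le_div_iff₀ hg]
  linarith

theorem sum_cells {N : ℕ} (A : Finset (Perm (Fin N))) :
    ∑ c : Fin N × Fin N, ((A.filter fun σ => σ c.1 = c.2).card : ℝ) = N * A.card := by
  rw [Fintype.sum_prod_type]
  have h : ∀ x : Fin N, ∑ y : Fin N, ((A.filter fun σ => σ x = y).card : ℝ) = A.card := by
    intro x
    rw [← Nat.cast_sum]
    congr 1
    exact (Finset.card_eq_sum_card_fiberwise (f := fun σ : Perm (Fin N) => σ x)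
      (t := univ) (fun _ _ => by simp)).symm
  simp only [h, sum_const, card_univ, Fintype.card_fin, nsmul_eq_mul]

theorem sum_cells_ag {N : ℕ} (Q B : Finset (Perm (Fin N))) :
    ∑ c : Fin N × Fin N, ((Q.filter fun σ => σ c.1 = c.2).card : ℝ) *
      (B.filter fun σ => σ c.1 = c.2).card = ∑ σ ∈ Q, ∑ τ ∈ B, (ag σ τ : ℝ) := by
  have h1 : ∀ c : Fin N × Fin N, ((Q.filter fun σ => σ c.1 = c.2).card : ℝ) *
      (B.filter fun σ => σ c.1 = c.2).card =
      ∑ σ ∈ Q, ∑ τ ∈ B, (if σ c.1 = c.2 ∧ τ c.1 = c.2 then 1 else 0 : ℝ) := by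
    intro c
    rw [Finset.card_filter, Finset.card_filter, Nat.cast_sum, Nat.cast_sum, Finset.sum_mul_sum]
    refine Finset.sum_congr rfl fun σ _ => Finset.sum_congr rfl fun τ _ => ?_
    by_cases h : σ c.1 = c.2 <;> by_cases h' : τ c.1 = c.2 <;> simp [h, h']
  rw [Finset.sum_congr rfl fun c _ => h1 c, Finset.sum_comm]
  refine Finset.sum_congr rfl fun σ _ => ?_
  rw [Finset.sum_comm]
  refine Finset.sum_congr rfl fun τ _ => ?_
  rw [Fintype.sum_prod_type]
  unfold ag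
  rw [Finset.card_filter, Nat.cast_sum]
  refine Finset.sum_congr rfl fun x _ => ?_
  simp only
  rw [Finset.sum_eq_single (σ x)]
  · by_cases h : σ x = τ x <;> simp [h, eq_comm]
  · intro y _ hy
    rw [if_neg]
    rintro ⟨h, -⟩
    exact hy h.symm
  · intro h
    exact absurd (mem_univ _) h

/-- the members through the cell `(i, j)`, seen on `N` points -/
def red {N : ℕ} (A : Finset (Perm (Fin (N + 1)))) (i j : Fin (N + 1)) : Finset (Perm (Fin N)) :=
  univ.filter (fun π => swap 0 j * ND.ext π * swap 0 i ∈ A)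

theorem card_red {N : ℕ} (A : Finset (Perm (Fin (N + 1)))) (i j : Fin (N + 1)) :
    (red A i j).card = (A.filter fun σ => σ i = j).card := by
  classical
  refine Finset.card_bij (fun π _ => swap 0 j * ND.ext π * swap 0 i) ?_ ?_ ?_
  · intro π hπ
    refine mem_filter.2 ⟨(mem_filter.1 hπ).2, ?_⟩
    simp only [Perm.mul_apply, swap_apply_right, ND.ext_zero, swap_apply_left]
  · intro π _ ρ _ h
    have h1 : ND.ext π = ND.ext ρ := mul_left_cancel (mul_right_cancel h)
    ext k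
    have := congrArg (fun f : Perm (Fin (N + 1)) => f k.succ) h1
    simp only [ND.ext_succ, Fin.succ_inj] at this
    rw [this]
  · intro σ hσ
    obtain ⟨hσ1, hσ2⟩ := mem_filter.1 hσ
    obtain ⟨π, hπ⟩ := ND.exists_ext (swap 0 j * σ * swap 0 i) (by
      simp only [Perm.mul_apply, swap_apply_left, hσ2, swap_apply_right])
    have h2 : swap 0 j * ND.ext π * swap 0 i = σ := by
      rw [hπ]
      have e1 : swap 0 j * (swap 0 j * σ * swap 0 i) * swap 0 i =
          (swap 0 j * swap 0 j) * σ * (swap 0 i * swap 0 i) := by group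
      rw [e1, swap_mul_self, swap_mul_self, one_mul, mul_one]
    refine ⟨π, mem_filter.2 ⟨mem_univ _, ?_⟩, h2⟩
    rw [h2]
    exact hσ1

theorem ag_red {N : ℕ} {A B : Finset (Perm (Fin (N + 1)))} {i j : Fin (N + 1)} {s : ℕ}
    (h : ∀ σ ∈ A, ∀ τ ∈ B, s + 1 ≤ ag σ τ) :
    ∀ σ ∈ red A i j, ∀ τ ∈ red B i j, s ≤ ag σ τ := by
  intro σ hσ τ hτ
  have h1 := h _ (mem_filter.1 hσ).2 _ (mem_filter.1 hτ).2
  unfold ag at h1 ⊢
  rw [ND.agr_mul, ND.agr_ext] at h1
  omega

/-- one more point and one more agreement -/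
theorem PB_succ {N s : ℕ} {X : ℝ} (h : PB N s X) :
    PB (N + 1) (s + 1) (X * (((N : ℝ) + 1) / (s + 1)) ^ 2) := by
  classical
  intro Q B h1 h2
  set q : ℝ := (Q.card : ℝ) with hq
  set b : ℝ := (B.card : ℝ) with hb
  have hq0 : 0 ≤ q := Nat.cast_nonneg _
  have hb0 : 0 ≤ b := Nat.cast_nonneg _
  have hX : 0 ≤ X := by simpa using h ∅ ∅ (by simp) (by simp)
  set x : Fin (N + 1) × Fin (N + 1) → ℝ := fun c => ((Q.filter fun σ => σ c.1 = c.2).card : ℝ) with hx
  set y : Fin (N + 1) × Fin (N + 1) → ℝ := fun c => ((B.filter fun σ => σ c.1 = c.2).card : ℝ) with hy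
  have hx0 : ∀ c, 0 ≤ x c := fun c => Nat.cast_nonneg _
  have hy0 : ∀ c, 0 ≤ y c := fun c => Nat.cast_nonneg _
  have hxy : ∀ c, x c * y c ≤ X := by
    intro c
    have := h (red Q c.1 c.2) (red B c.1 c.2) (ag_red h1) (ag_red h2)
    rwa [card_red, card_red] at this
  have hsx : ∑ c, x c = (N + 1) * q := by
    have := sum_cells Q
    push_cast at this
    exact this
  have hsy : ∑ c, y c = (N + 1) * b := by
    have := sum_cells B
    push_cast at this
    exact this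
  have hs : (s + 1) * (q * b) ≤ ∑ c, x c * y c := by
    rw [sum_cells_ag]
    calc ((s : ℝ) + 1) * (q * b) = ∑ σ ∈ Q, ∑ τ ∈ B, ((s : ℝ) + 1) := by
          rw [Finset.sum_const, Finset.sum_const, nsmul_eq_mul, nsmul_eq_mul]
          ring
      _ ≤ _ := Finset.sum_le_sum fun σ hσ => Finset.sum_le_sum fun τ hτ => by
          exact_mod_cast h1 σ hσ τ hτ
  -- Cauchy-Schwarz
  have hc1 : (∑ c, x c * y c) ≤ Real.sqrt X * ∑ c, Real.sqrt (x c * y c) := by
    rw [Finset.mul_sum]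
    refine Finset.sum_le_sum fun c _ => ?_
    have e := Real.mul_self_sqrt (mul_nonneg (hx0 c) (hy0 c))
    calc x c * y c = Real.sqrt (x c * y c) * Real.sqrt (x c * y c) := e.symm
      _ ≤ _ := mul_le_mul_of_nonneg_right (Real.sqrt_le_sqrt (hxy c)) (Real.sqrt_nonneg _)
  have hc2 : (∑ c, Real.sqrt (x c * y c)) ^ 2 ≤ (∑ c, x c) * ∑ c, y c :=
    Finset.sum_sq_le_sum_mul_sum_of_sq_le_mul _ (fun c _ => hx0 c) (fun c _ => hy0 c)
      fun c _ => (Real.sq_sqrt (mul_nonneg (hx0 c) (hy0 c))).le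
  have h5 : ((s + 1) * (q * b)) ^ 2 ≤ X * (((N + 1) * q) * ((N + 1) * b)) := by
    calc ((s + 1) * (q * b)) ^ 2 ≤ (Real.sqrt X * ∑ c, Real.sqrt (x c * y c)) ^ 2 :=
          pow_le_pow_left₀ (by positivity) (hs.trans hc1) 2
      _ = X * (∑ c, Real.sqrt (x c * y c)) ^ 2 := by rw [mul_pow, Real.sq_sqrt hX]
      _ ≤ X * ((∑ c, x c) * ∑ c, y c) := mul_le_mul_of_nonneg_left hc2 hX
      _ = _ := by rw [hsx, hsy]
  rcases eq_or_lt_of_le (mul_nonneg hq0 hb0) with h6 | h6
  · rw [← h6]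
    positivity
  · have hs1 : (0 : ℝ) < (s : ℝ) + 1 := by positivity
    have h7 : (q * b) * ((q * b) * (s + 1) ^ 2) ≤ (q * b) * (X * (N + 1) ^ 2) := by
      calc (q * b) * ((q * b) * (s + 1) ^ 2) = ((s + 1) * (q * b)) ^ 2 := by ring
        _ ≤ _ := h5
        _ = _ := by ring
    have h8 := le_of_mul_le_mul_left h7 h6
    rw [div_pow, ← mul_div_assoc, le_div_iff₀ (by positivity)]
    exact h8

end Pool.OS
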