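import Pool.Agent.Work.MP_46fa68_6.GapOne

/-!
# MP_46fa68_co: two-class certificates on the link of a cell (relaxed form)

`A` a `t`-intersecting family on `n + 2` points, `n + 1 = m + t`.  `Q` = the members through the cell, on `n + 1`
points (pairs agree in `t - 1` places), `B3` / `B2` = the permutations of `n + 1` points with at least three / one
or two marks.  Eigenvalue functions `p` (pairs of `Q`), `q` (cross), `r` (pairs of `B3`, and `B3` against `B2`).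
-/

set_option autoImplicit false

open Finset Equiv

namespace Pool.OS

open Pool.JM

/-- two-class certificate on `n + 1` points, levels `k'` for `p` and `k` for `q`, `r` -/
structure Two (n M k' k : ℕ) (p q r : Finset ℕ → ℝ) (W1 s11 s12 W2 s22 V C : ℝ) : Prop where
  hM : n + 1 < M
  ph : Harm M k' (n + 1) p
  pv : Val (n + 1) M k' p W1 s11
  qh : Harm M k (n + 1) q
  qv : Val (n + 1) M k q 0 s12
  rh : Harm M k (n + 1) r
  rv : Val (n + 1) M k r W2 s22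
  p0 : ∀ B ∈ Lv M (n + 1), 0 ≤ p B
  r0 : ∀ B ∈ Lv M (n + 1), 0 ≤ r B
  det : ∀ B ∈ Lv M (n + 1), q B ^ 2 ≤ p B * r B
  rV : ∀ B ∈ Lv M (n + 1), r B ≤ V
  qC : ∀ B ∈ Lv M (n + 1), q B ^ 2 ≤ C ^ 2

variable {n k' k m t M : ℕ} {p q r : Finset ℕ → ℝ} {W1 s11 s12 W2 s22 V C : ℝ}

/-- Cauchy-Schwarz for three eigenvalue functions -/
theorem cs_two (hM : n + 1 < M) (h0 : ∀ B ∈ Lv M (n + 1), 0 ≤ p B)
    (h1 : ∀ B ∈ Lv M (n + 1), 0 ≤ r B) (h2 : ∀ B ∈ Lv M (n + 1), q B ^ 2 ≤ p B * r B)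
    (x y : Perm (Fin (n + 1)) → ℝ) :
    (qf (n + 1) M q x y) ^ 2 ≤ qf (n + 1) M p x x * qf (n + 1) M r y y := by
  rw [qf_eq hM, qf_eq hM, qf_eq hM]
  refine Finset.sum_sq_le_sum_mul_sum_of_sq_le_mul _
    (fun B hB => mul_nonneg (h0 B hB) (dot_nonneg _))
    (fun B hB => mul_nonneg (h1 B hB) (dot_nonneg _)) fun B hB => ?_
  have hcs := Finset.sum_mul_sq_le_sq_mul_sq (univ : Finset (Perm (Fin (n + 1))))
    ((P (n + 1) M (n + 1) B).mulVec x) ((P (n + 1) M (n + 1) B).mulVec y)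
  have hcs' : ((P (n + 1) M (n + 1) B).mulVec x ⬝ᵥ (P (n + 1) M (n + 1) B).mulVec y) ^ 2 ≤
      ((P (n + 1) M (n + 1) B).mulVec x ⬝ᵥ (P (n + 1) M (n + 1) B).mulVec x) *
      ((P (n + 1) M (n + 1) B).mulVec y ⬝ᵥ (P (n + 1) M (n + 1) B).mulVec y) := by
    simp only [dotProduct]
    refine hcs.trans (le_of_eq ?_)
    simp only [sq]
  calc (q B * _) ^ 2 = q B ^ 2 * _ ^ 2 := by ring
    _ ≤ (p B * r B) * (((P (n + 1) M (n + 1) B).mulVec x ⬝ᵥ (P (n + 1) M (n + 1) B).mulVec x) *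
      ((P (n + 1) M (n + 1) B).mulVec y ⬝ᵥ (P (n + 1) M (n + 1) B).mulVec y)) :=
        mul_le_mul (h2 B hB) hcs' (sq_nonneg _) (mul_nonneg (h0 B hB) (h1 B hB))
    _ = _ := by ring

/-- upper bound of the form on two families -/
theorem form_le (hM : n + 1 < M) (hk : k ≤ n) {a : Finset ℕ → ℝ} {w s : ℝ}
    (h1 : Harm M k (n + 1) a) (h2 : Val (n + 1) M k a w s) (S T : Finset (Perm (Fin (n + 1))))
    (h : ∀ σ ∈ S, ∀ τ ∈ T, n + 1 - k ≤ ag σ τ) :
    qf (n + 1) M a (vec S) (vec T) ≤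
      w * ((S ∩ T).card : ℝ) - s * ((S.card : ℝ) * T.card / k.factorial) := by
  unfold qf
  rw [vec_quad]
  calc ∑ σ ∈ S, ∑ τ ∈ T, G (n + 1) M a (n + 1) σ τ ≤
      ∑ σ ∈ S, ∑ τ ∈ T, ((if σ = τ then w else 0) - s / k.factorial) :=
        Finset.sum_le_sum fun σ hσ => Finset.sum_le_sum fun τ hτ =>
          pair_le hM hk (Or.inr rfl) a w s h1 h2 (fun h => by omega) (h σ hσ τ hτ)
    _ = _ := by
        simp only [Finset.sum_sub_distrib, Finset.sum_const, nsmul_eq_mul, Finset.sum_ite_eq]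
        rw [Finset.sum_ite, Finset.sum_const_zero, add_zero, Finset.sum_const, nsmul_eq_mul,
          Finset.filter_mem_eq_inter]
        ring

/-- algebra: division by `x y` -/
theorem alg6 {x y F' F : ℝ} (hx : 0 < x) (hy : 0 ≤ y) (hF' : 0 < F') (hF : 0 < F)
    (hs : 0 ≤ s12) (hW2 : 0 ≤ W2) {u v z : ℝ} (h : z ^ 2 ≤ u * v) (hu : 0 ≤ u) (hv : 0 ≤ v)
    (hz : z ≤ - (s12 * (x * y / F))) (h1 : u ≤ W1 * x - s11 * (x * x / F'))
    (h2 : v ≤ W2 * y - s22 * (y * y / F)) :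
    s12 ^ 2 * (F' / F) * (x / F') * (y / F) ≤ (W1 - s11 * (x / F')) * (W2 - s22 * (y / F)) ∧
      0 ≤ W1 - s11 * (x / F') ∧ 0 ≤ W2 - s22 * (y / F) := by
  have e1 : W1 * x - s11 * (x * x / F') = x * (W1 - s11 * (x / F')) := by ring
  have e2 : W2 * y - s22 * (y * y / F) = y * (W2 - s22 * (y / F)) := by ring
  rw [e1] at h1
  rw [e2] at h2
  have a1 : 0 ≤ W1 - s11 * (x / F') := by
    by_contra hneg
    rw [not_le] at hneg
    have := mul_neg_of_pos_of_neg hx hneg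
    linarith
  rcases eq_or_lt_of_le hy with h0 | h0
  · rw [← h0]
    simp only [zero_div, mul_zero, sub_zero]
    exact ⟨mul_nonneg a1 hW2, a1, hW2⟩
  · have a2 : 0 ≤ W2 - s22 * (y / F) := by
      by_contra hneg
      rw [not_le] at hneg
      have := mul_neg_of_pos_of_neg h0 hneg
      linarith
    refine ⟨?_, a1, a2⟩
    have b0 : 0 ≤ s12 * (x * y / F) := by positivity
    have b1 : (s12 * (x * y / F)) ^ 2 ≤ z ^ 2 := by
      rw [← neg_sq z]
      exact pow_le_pow_left₀ b0 (by linarith) 2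
    have b2 : (s12 * (x * y / F)) ^ 2 ≤
        (x * (W1 - s11 * (x / F'))) * (y * (W2 - s22 * (y / F))) :=
      b1.trans (h.trans (mul_le_mul h1 h2 hv (hu.trans h1)))
    have e3 : (s12 * (x * y / F)) ^ 2 = (x * y) * (s12 ^ 2 * (F' / F) * (x / F') * (y / F)) := by
      field_simp
    rw [e3] at b2
    have e4 : (x * (W1 - s11 * (x / F'))) * (y * (W2 - s22 * (y / F))) =
        (x * y) * ((W1 - s11 * (x / F')) * (W2 - s22 * (y / F))) := by ring
    rw [e4] at b2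
    exact le_of_mul_le_mul_left b2 (mul_pos hx h0)

/-- **product bound** from a two-class certificate -/
theorem Two.prod (h : Two n M k' k p q r W1 s11 s12 W2 s22 V C) (hk' : k' ≤ n) (hk : k ≤ n)
    (h11 : 0 ≤ s11) (h12 : 0 < s12) (h22 : 0 ≤ s22) (hW1 : 0 ≤ W1) (hW2 : 0 ≤ W2)
    (Q B : Finset (Perm (Fin (n + 1)))) (hQ : ∀ σ ∈ Q, ∀ τ ∈ Q, n + 1 - k' ≤ ag σ τ)
    (hQB : ∀ σ ∈ Q, ∀ τ ∈ B, n + 1 - k ≤ ag σ τ) (hB : ∀ σ ∈ B, ∀ τ ∈ B, n + 1 - k ≤ ag σ τ) :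
    (Q.card : ℝ) * B.card ≤ W1 * W2 / s12 ^ 2 * (k.factorial : ℝ) ^ 2 := by
  have hF := fac_pos k
  have hF' := fac_pos k'
  have c1 := form_le h.hM hk' h.ph h.pv Q Q hQ
  have c2 := form_le h.hM hk h.qh h.qv Q B hQB
  have c3 := form_le h.hM hk h.rh h.rv B B hB
  have cs := cs_two h.hM h.p0 h.r0 h.det (vec Q) (vec B)
  have u0 := qf_nonneg h.hM h.p0 (vec Q)
  have v0 := qf_nonneg h.hM h.r0 (vec B)
  rw [inter_self] at c1 c3
  rw [zero_mul, zero_sub] at c2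
  set x : ℝ := (Q.card : ℝ) with hx
  set y : ℝ := (B.card : ℝ) with hy
  have hx0 : 0 ≤ x := Nat.cast_nonneg _
  have hy0 : 0 ≤ y := Nat.cast_nonneg _
  rcases eq_or_lt_of_le hx0 with h0 | h0
  · rw [← h0, zero_mul]
    positivity
  have k1 := (alg6 h0 hy0 hF' hF h12.le hW2 cs u0 v0 c2 c1 c3).1
  have k2 : (W1 - s11 * (x / k'.factorial)) * (W2 - s22 * (y / k.factorial)) ≤ W1 * W2 := by
    have a1 := (alg6 h0 hy0 hF' hF h12.le hW2 cs u0 v0 c2 c1 c3).2.2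
    refine mul_le_mul ?_ ?_ a1 hW1
    · have : 0 ≤ s11 * (x / k'.factorial) := by positivity
      linarith
    · have : 0 ≤ s22 * (y / k.factorial) := by positivity
      linarith
  have k3 := k1.trans k2
  have e : s12 ^ 2 * ((k'.factorial : ℝ) / k.factorial) * (x / k'.factorial) * (y / k.factorial) =
      (x * y) * s12 ^ 2 / (k.factorial : ℝ) ^ 2 := by
    field_simp
  rw [e, div_le_iff₀ (by positivity)] at k3
  rw [div_mul_eq_mul_div, le_div_iff₀ (by positivity)]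
  exact k3

/-- cross bound by the largest value of `q` -/
theorem Two.cross (h : Two n M k' k p q r W1 s11 s12 W2 s22 V C) (hk : k ≤ n)
    (h12 : 0 < s12) (Q B : Finset (Perm (Fin (n + 1))))
    (hQB : ∀ σ ∈ Q, ∀ τ ∈ B, n + 1 - k ≤ ag σ τ) :
    (Q.card : ℝ) * B.card ≤ (C / s12) ^ 2 * (k.factorial : ℝ) ^ 2 := by
  have hF := fac_pos k
  have c2 := form_le h.hM hk h.qh h.qv Q B hQB
  rw [zero_mul, zero_sub] at c2
  have cs := cs_gen h.hM q (fun _ => 1) (c := C ^ 2) (g := 1)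
    (fun B hB => by rw [one_mul, mul_one]; exact h.qC B hB) one_pos (vec Q) (vec B)
  rw [qf_const h.hM, vec_dot, vec_dot, inter_self, inter_self, one_mul, one_mul] at cs
  set x : ℝ := (Q.card : ℝ) with hx
  set y : ℝ := (B.card : ℝ) with hy
  have hx0 : 0 ≤ x := Nat.cast_nonneg _
  have hy0 : 0 ≤ y := Nat.cast_nonneg _
  have b0 : 0 ≤ s12 * (x * y / k.factorial) := by positivity
  have b1 : (s12 * (x * y / k.factorial)) ^ 2 ≤ C ^ 2 * x * y := by
    refine le_trans ?_ cs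
    rw [← neg_sq (qf (n + 1) M q (vec Q) (vec B))]
    exact pow_le_pow_left₀ b0 (by linarith) 2
  rcases eq_or_lt_of_le (mul_nonneg hx0 hy0) with h6 | h6
  · rw [← h6]
    positivity
  · have e1 : (s12 * (x * y / k.factorial)) ^ 2 =
        (x * y) * ((x * y) * s12 ^ 2 / (k.factorial : ℝ) ^ 2) := by
      field_simp
    have e2 : C ^ 2 * x * y = (x * y) * C ^ 2 := by ring
    rw [e1, e2] at b1
    have b2 := le_of_mul_le_mul_left b1 h6
    rw [div_le_iff₀ (by positivity)] at b2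
    rw [div_pow, div_mul_eq_mul_div, le_div_iff₀ (by positivity)]
    exact b2

/-- the main inequality of the relaxed form -/
theorem Two.main (h : Two n M (m + 1) m p q r W1 s11 s12 W2 s22 V C) (hm : m + 1 ≤ n)
    (h12 : 0 ≤ s12) (hW2 : 0 ≤ W2) {ρ : ℝ} (hρ : 0 ≤ ρ)
    (Q B3 B2 : Finset (Perm (Fin (n + 1))))
    (hQ : ∀ σ ∈ Q, ∀ τ ∈ Q, n + 1 - (m + 1) ≤ ag σ τ)
    (h3 : ∀ σ ∈ Q, ∀ τ ∈ B3, n + 1 - m ≤ ag σ τ) (h2 : ∀ σ ∈ Q, ∀ τ ∈ B2, n + 1 - m ≤ ag σ τ)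
    (h33 : ∀ σ ∈ B3, ∀ τ ∈ B3, n + 1 - m ≤ ag σ τ) (h32 : ∀ σ ∈ B3, ∀ τ ∈ B2, n + 1 - m ≤ ag σ τ)
    (hdisj : Disjoint B3 B2) (hQ0 : 0 < Q.card)
    (hcond : ρ * (s22 * ((B2.card : ℝ) / m.factorial) + V) ≤ W2) :
    let x : ℝ := (Q.card : ℝ) / (m + 1).factorial
    let y : ℝ := ((B3.card : ℝ) + ρ * B2.card) / m.factorial
    s12 ^ 2 * (m + 1) * x * y ≤ (W1 - s11 * x) * (W2 - s22 * y) ∧
      0 ≤ W1 - s11 * x ∧ 0 ≤ W2 - s22 * y := by
  intro x y
  have hF := fac_pos m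
  have hF' := fac_pos (m + 1)
  have hmn : m ≤ n := by omega
  have hM := h.hM
  have c1 := form_le hM hm h.ph h.pv Q Q hQ
  have c2 := form_le hM hmn h.qh h.qv Q B3 h3
  have c2' := form_le hM hmn h.qh h.qv Q B2 h2
  have c3 := form_le hM hmn h.rh h.rv B3 B3 h33
  have c3' := form_le hM hmn h.rh h.rv B3 B2 h32
  have c4 := qf_le hM h.rV (vec B2)
  rw [inter_self] at c1 c3
  rw [zero_mul, zero_sub] at c2 c2'
  rw [disjoint_iff_inter_eq_empty.1 hdisj, card_empty, Nat.cast_zero, mul_zero, zero_sub] at c3'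
  rw [vec_dot, inter_self] at c4
  have cs := cs_two hM h.p0 h.r0 h.det (vec Q) (vec B3 + ρ • vec B2)
  have u0 := qf_nonneg hM h.p0 (vec Q)
  have v0 := qf_nonneg hM h.r0 (vec B3 + ρ • vec B2)
  have hq : (0 : ℝ) < (Q.card : ℝ) := by exact_mod_cast hQ0
  have hb3 : (0 : ℝ) ≤ (B3.card : ℝ) := Nat.cast_nonneg _
  have hb2 : (0 : ℝ) ≤ (B2.card : ℝ) := Nat.cast_nonneg _
  have hL : 0 ≤ (B3.card : ℝ) + ρ * B2.card := by positivity
  have z1 : qf (n + 1) M q (vec Q) (vec B3 + ρ • vec B2) ≤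
      -(s12 * ((Q.card : ℝ) * ((B3.card : ℝ) + ρ * B2.card) / m.factorial)) := by
    rw [qf_add_right]
    have := mul_le_mul_of_nonneg_left c2' hρ
    calc qf (n + 1) M q (vec Q) (vec B3) + ρ * qf (n + 1) M q (vec Q) (vec B2) ≤
        -(s12 * ((Q.card : ℝ) * B3.card / m.factorial)) +
          ρ * -(s12 * ((Q.card : ℝ) * B2.card / m.factorial)) := add_le_add c2 this
      _ = _ := by ring
  have z2 : qf (n + 1) M r (vec B3 + ρ • vec B2) (vec B3 + ρ • vec B2) ≤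
      W2 * ((B3.card : ℝ) + ρ * B2.card) -
        s22 * (((B3.card : ℝ) + ρ * B2.card) * ((B3.card : ℝ) + ρ * B2.card) / m.factorial) := by
    rw [qf_sq hM]
    have e6 := mul_le_mul_of_nonneg_left c3' (by positivity : (0 : ℝ) ≤ 2 * ρ)
    have e7 := mul_le_mul_of_nonneg_left c4 (by positivity : (0 : ℝ) ≤ ρ ^ 2)
    have e8 := mul_le_mul_of_nonneg_left hcond (mul_nonneg hρ hb2)
    have e9 : W2 * ((B3.card : ℝ) + ρ * B2.card) -
        s22 * (((B3.card : ℝ) + ρ * B2.card) * ((B3.card : ℝ) + ρ * B2.card) / m.factorial) =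
        (W2 * B3.card - s22 * ((B3.card : ℝ) * B3.card / m.factorial)) +
        2 * ρ * -(s22 * ((B3.card : ℝ) * B2.card / m.factorial)) + ρ ^ 2 * (V * B2.card) +
        (ρ * B2.card * W2 - ρ * B2.card * (ρ * (s22 * ((B2.card : ℝ) / m.factorial) + V))) := by
      ring
    rw [e9]
    linarith
  have key := alg6 hq hL hF' hF h12 hW2 cs u0 v0 z1 c1 z2
  have hfac : (((m + 1).factorial : ℕ) : ℝ) / m.factorial = (m : ℝ) + 1 := by
    rw [Nat.factorial_succ]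
    push_cast
    field_simp
  rw [hfac] at key
  exact key

end Pool.OS
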