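import Pool.Agent.Work.MP_46fa68_h3.Two
import Pool.Agent.Work.MP_46fa68_6.TwoClass
import Pool.Agent.Work.MP_46fa68_86.Unif3

/-!
# MP_46fa68_co: THE PRODUCT FORM

`c` a class function on `n + 1` points with level `k + 1` values `W` (no other shape distinguished), `b` one with
level `k` values `- s [one row]`, and `c + b ≥ 0`, `c - b ≥ 0` at every shape of `n + 1` boxes.  Then
`|A_(x,y)| (|A| - |A_(x,y)|) ≤ ((W / s)^2 k / (k + 1)^2 + t C) (k + 1)!^2` for every `t`-intersecting family `A` on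
`n + 2 = k + t + 1` points, `C` = the constant of the cross bound for pairs with `t + 1` agreements.
-/

set_option autoImplicit false

open Finset Equiv

namespace Pool.OS

open Pool.JM Pool.TW

variable {n k t M : ℕ}

/-- data of the product form -/
structure PF (n M k : ℕ) (c b : Finset ℕ → ℝ) (W s : ℝ) : Prop where
  hM : n + 1 < M
  ch : Harm M (k + 1) (n + 1) c
  cv : Val (n + 1) M (k + 1) c W 0
  bh : Harm M k (n + 1) b
  bv : Val (n + 1) M k b 0 s
  pos : ∀ B ∈ Lv M (n + 1), 0 ≤ c B + b B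
  neg : ∀ B ∈ Lv M (n + 1), 0 ≤ c B - b B

theorem PF.nonneg {c b : Finset ℕ → ℝ} {W s : ℝ} (h : PF n M k c b W s) :
    ∀ B ∈ Lv M (n + 1), 0 ≤ c B := fun B hB => by
  have h1 := h.pos B hB
  have h2 := h.neg B hB
  linarith

theorem PF.sq {c b : Finset ℕ → ℝ} {W s : ℝ} (h : PF n M k c b W s) :
    ∀ B ∈ Lv M (n + 1), b B ^ 2 ≤ c B * c B := fun B hB => by
  have h1 := h.pos B hB
  have h2 := h.neg B hB
  have h3 := mul_nonneg h1 h2
  have e : (c B + b B) * (c B - b B) = c B * c B - b B ^ 2 := by ring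
  linarith

/-- division -/
theorem alg7 {x l F W s : ℝ} (hx : 0 ≤ x) (hl : 0 ≤ l) (hF : 0 < F) (hs : 0 < s) {u v z : ℝ}
    (h : z ^ 2 ≤ u * v) (hv : 0 ≤ v) (hW : 0 ≤ W)
    (hz : z ≤ -(s / F * (x * l))) (h1 : u ≤ W * x) (h2 : v ≤ W * l) :
    x * l ≤ (W / s) ^ 2 * F ^ 2 := by
  have b0 : 0 ≤ s / F * (x * l) := by positivity
  have b1 : (s / F * (x * l)) ^ 2 ≤ z ^ 2 := by
    rw [← neg_sq z]
    exact pow_le_pow_left₀ b0 (by linarith) 2
  have b2 : (s / F * (x * l)) ^ 2 ≤ (W * x) * (W * l) :=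
    b1.trans (h.trans (mul_le_mul h1 h2 hv (by positivity)))
  rcases eq_or_lt_of_le (mul_nonneg hx hl) with h6 | h6
  · rw [← h6]
    positivity
  · have e1 : (s / F * (x * l)) ^ 2 = (x * l) * ((x * l) * s ^ 2 / F ^ 2) := by
      field_simp
    have e2 : (W * x) * (W * l) = (x * l) * W ^ 2 := by ring
    rw [e1, e2] at b2
    have b3 := le_of_mul_le_mul_left b2 h6
    rw [div_le_iff₀ (by positivity)] at b3
    rw [div_pow, div_mul_eq_mul_div, le_div_iff₀ (by positivity)]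
    exact b3

/-- `|A_c|` times the truncated number of the other members -/
theorem PF.off {c b : Finset ℕ → ℝ} {W s : ℝ} (h : PF n M k c b W s) (hN : n + 1 = k + t)
    (hk : k + 1 ≤ n) (hk1 : 1 ≤ k) (hs : 0 < s) (hW : 0 ≤ W)
    (A : Finset (Perm (Fin (n + 1 + 1)))) (hA : ∀ σ ∈ A, ∀ τ ∈ A, t ≤ ag σ τ) :
    ((Qs A).card : ℝ) * (TW.off k A : ℝ) ≤ k * ((W / s) ^ 2 * (k.factorial : ℝ) ^ 2) := by
  have hk0 : (0 : ℝ) < k := by exact_mod_cast (show 0 < k by omega)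
  have hF := fac_pos k
  obtain ⟨X, hX⟩ : ∃ X : ℝ, X = ((Qs A).card : ℝ) := ⟨_, rfl⟩
  obtain ⟨Y, hY⟩ : ∃ Y : ℝ, Y = (TW.off k A : ℝ) := ⟨_, rfl⟩
  have hX0 : 0 ≤ X := by rw [hX]; exact Nat.cast_nonneg _
  have hY0 : 0 ≤ Y := by rw [hY]; exact Nat.cast_nonneg _
  have hsw : ∑ π, wt k (Ws A) π = Y / k := by
    unfold wt
    rw [← Finset.sum_div, hY]
    unfold TW.off
    rw [Nat.cast_sum]
  have hsx : ∑ σ, vec (Qs A) σ = X := by rw [sum_vec, hX]
  have h1 : qf (n + 1) M c (vec (Qs A)) (vec (Qs A)) ≤ W * X := by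
    have := qf_weights (M := M) c (vec (Qs A)) (vec (Qs A)) (vec_nonneg _) (vec_nonneg _) W
      (0 / (k + 1).factorial) (fun σ τ hσ hτ => pair_le h.hM hk (Or.inr rfl) c W 0 h.ch h.cv
        (fun h => by omega) (by
          have := ag_Qs A hA (mem_of_vec hσ) (mem_of_vec hτ)
          unfold ag at this
          omega))
    rw [sum_vec_mul, zero_div, zero_mul, sub_zero, ← hX] at this
    exact this
  have h2 : qf (n + 1) M b (vec (Qs A)) (wt k (Ws A)) ≤ -(s / k.factorial * (X * (Y / k))) := by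
    have := qf_weights (M := M) b (vec (Qs A)) (wt k (Ws A)) (vec_nonneg _) (wt_nonneg _ _) 0
      (s / k.factorial) (fun σ τ hσ hτ =>
        pair_le h.hM (by omega : k ≤ n) (Or.inr rfl) b 0 s h.bh h.bv (fun h => by omega) (by
            have := (fib A hA).cross (mem_of_vec hσ) (pos_of_wt hτ)
            unfold ag at this
            omega))
    rw [zero_mul, zero_sub, hsx, hsw] at this
    exact this
  have h3 : qf (n + 1) M c (wt k (Ws A)) (wt k (Ws A)) ≤ W * (Y / k) := by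
    have h' := qf_weights (M := M) c (wt k (Ws A)) (wt k (Ws A)) (wt_nonneg _ _) (wt_nonneg _ _) W
      (0 / (k + 1).factorial) (fun σ τ hσ hτ => pair_le h.hM hk (Or.inr rfl) c W 0 h.ch h.cv
        (fun h => by omega) (by
          have := ag_fibres A hA (pos_of_wt hσ) (pos_of_wt hτ)
          unfold ag at this
          omega))
    rw [zero_div, zero_mul, sub_zero] at h'
    refine h'.trans (mul_le_mul_of_nonneg_left ?_ hW)
    rw [← hsw]
    refine Finset.sum_le_sum fun π _ => ?_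
    exact mul_le_of_le_one_right (wt_nonneg _ _ _) (wt_le _ _ _)
  have cs := cs_two h.hM h.nonneg h.nonneg h.sq (vec (Qs A)) (wt k (Ws A))
  have v0 := qf_nonneg h.hM h.nonneg (wt k (Ws A))
  have key := alg7 hX0 (div_nonneg hY0 hk0.le) hF hs cs v0 hW h2 h1 h3
  rw [← hX, ← hY]
  calc X * Y = k * (X * (Y / k)) := by field_simp
    _ ≤ _ := mul_le_mul_of_nonneg_left key hk0.le

/-- **THE PRODUCT FORM ⟹ the product bound at every cell** -/
theorem PF.prodBound {c b : Finset ℕ → ℝ} {W s C : ℝ} (h : PF n M k c b W s)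
    (hN : n + 1 = k + t) (hk : k + 1 ≤ n) (hk1 : 1 ≤ k) (hs : 0 < s) (hW : 0 ≤ W)
    (hC : CB (n + 1) (t + 1) (C * ((k + 1).factorial : ℝ) ^ 2)) :
    EG.ProdBound (n + 1 + 1) t ((W / s) ^ 2 * (k / ((k : ℝ) + 1) ^ 2) + t * C) := by
  intro A hA x y
  obtain ⟨A', hA1, hA2, hA3⟩ := exists_move A x y
  have hA4 : ∀ σ ∈ A', ∀ τ ∈ A', t ≤ ag σ τ := hA3 t hA
  rw [show n + 1 + 1 - t = k + 1 by omega]
  have e0 : ((EG.thr A x y).card : ℝ) = ((Qs A').card : ℝ) := by
    rw [hA2]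
    rfl
  rw [e0, ← hA1]
  have key := h.off hN hk hk1 hs hW A' hA4
  have u1 := card_off hN A'
  have u3 := hC (Qs A') (Bp k (Ws A')) fun σ hσ τ hτ =>
    (fib A' hA4).cross_big hN hσ (mem_filter.1 hτ).2
  have u1' : (A'.card : ℝ) ≤
      ((Qs A').card : ℝ) + ((TW.off k A' : ℝ) + t * ((Bp k (Ws A')).card : ℝ)) := by
    exact_mod_cast u1
  have hX0 : (0 : ℝ) ≤ ((Qs A').card : ℝ) := Nat.cast_nonneg _
  have hk0 : (0 : ℝ) < (k : ℝ) + 1 := by positivity
  have hfac : (((k + 1).factorial : ℕ) : ℝ) = ((k : ℝ) + 1) * k.factorial := by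
    rw [Nat.factorial_succ]
    push_cast
    ring
  have e1 : (k : ℝ) * ((W / s) ^ 2 * (k.factorial : ℝ) ^ 2) =
      (W / s) ^ 2 * (k / ((k : ℝ) + 1) ^ 2) * ((k + 1).factorial : ℝ) ^ 2 := by
    rw [hfac]
    field_simp
  rw [e1] at key
  have u4 := mul_le_mul_of_nonneg_left u3 (Nat.cast_nonneg (α := ℝ) t)
  have u5 := mul_le_mul_of_nonneg_left (sub_le_iff_le_add'.2 u1') hX0
  calc ((Qs A').card : ℝ) * ((A'.card : ℝ) - ((Qs A').card : ℝ)) ≤
      ((Qs A').card : ℝ) * ((TW.off k A' : ℝ) + t * ((Bp k (Ws A')).card : ℝ)) := u5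
    _ = ((Qs A').card : ℝ) * (TW.off k A' : ℝ) +
        t * (((Qs A').card : ℝ) * ((Bp k (Ws A')).card : ℝ)) := by ring
    _ ≤ _ := by
      rw [add_mul]
      refine add_le_add key ?_
      calc t * (((Qs A').card : ℝ) * ((Bp k (Ws A')).card : ℝ)) ≤
          t * (C * ((k + 1).factorial : ℝ) ^ 2) := u4
        _ = _ := by ring

end Pool.OS
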