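import Pool.Agent.Work.MP_46fa68_6.Prod

/-!
# MP_46fa68_co: the product form for `n = 2 t + 1`, `t ≥ 24`
-/

set_option autoImplicit false

open Finset Equiv

namespace Pool.OS

open Pool.JM Pool.TW

/-- **`n = 2 t + 1` from the product form**: `c`, `b` on `2 t` points (levels `t + 1`, `t`), `v` on `2 t` points
(level `t - 1`, value `1` at one row and `0` elsewhere, `|v| ≤ C`). -/
theorem prodBound_main {t M M' : ℕ} (ht : 2 ≤ t) {c b v : Finset ℕ → ℝ} {W s C Λ : ℝ}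
    (h : PF (2 * t - 1) M t c b W s) (hs : 0 < s) (hW : 0 ≤ W)
    (hM' : 2 * t < M') (v1 : Harm M' (t - 1) (2 * t) v)
    (v2 : ∀ D ∈ Lv M' (t - 1), v D = if D = Rw M' (t - 1) then 1 else 0)
    (v3 : ∀ B ∈ Lv M' (2 * t), |v B| ≤ C)
    (hΛ : (W / s) ^ 2 * (t / ((t : ℝ) + 1) ^ 2) + C ^ 2 / (t * ((t : ℝ) + 1) ^ 2) ≤ Λ) :
    EG.ProdBound (2 * t + 1) t Λ := by
  have e1 : 2 * t - 1 + 1 = 2 * t := by omega
  have ht0 : (0 : ℝ) < t := by exact_mod_cast (show 0 < t by omega)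
  have hC : CB (2 * t - 1 + 1) (t + 1)
      (C ^ 2 / (t * ((t : ℝ) + 1)) ^ 2 * ((t + 1).factorial : ℝ) ^ 2) := by
    rw [e1]
    have h1 := CB_of hM' (by omega : t - 1 ≤ 2 * t) v C v1 v2 v3
    rw [show 2 * t - (t - 1) = t + 1 by omega] at h1
    have e2 : (((t + 1).factorial : ℕ) : ℝ) = ((t : ℝ) + 1) * t * (t - 1).factorial := by
      obtain ⟨u, rfl⟩ : ∃ u, t = u + 1 := ⟨t - 1, by omega⟩
      rw [Nat.factorial_succ, Nat.factorial_succ, Nat.add_sub_cancel]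
      push_cast
      ring
    have e3 : C ^ 2 / (t * ((t : ℝ) + 1)) ^ 2 * ((t + 1).factorial : ℝ) ^ 2 =
        (C * (t - 1).factorial) ^ 2 := by
      rw [e2]
      field_simp
    rw [e3]
    exact h1
  have key := h.prodBound (t := t) (by omega) (by omega) (by omega) hs hW hC
  rw [e1] at key
  refine key.mono (le_trans (le_of_eq ?_) hΛ)
  congr 1
  field_simp

/-- the constant of `holds_large_prod` -/
theorem prodBound_large {t M M' : ℕ} (ht : 2 ≤ t) {c b v : Finset ℕ → ℝ} {W s C : ℝ}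
    (h : PF (2 * t - 1) M t c b W s) (hs : 0 < s) (hW : 0 ≤ W)
    (hM' : 2 * t < M') (v1 : Harm M' (t - 1) (2 * t) v)
    (v2 : ∀ D ∈ Lv M' (t - 1), v D = if D = Rw M' (t - 1) then 1 else 0)
    (v3 : ∀ B ∈ Lv M' (2 * t), |v B| ≤ C)
    (hΛ : (W / s) ^ 2 * t ^ 2 + C ^ 2 ≤ 1453 / 1000 * (t * ((t : ℝ) + 1))) :
    EG.ProdBound (2 * t + 1) t (1453 / 1000 / (t + 1)) := by
  have ht0 : (0 : ℝ) < t := by exact_mod_cast (show 0 < t by omega)
  refine prodBound_main ht h hs hW hM' v1 v2 v3 ?_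
  have e : (W / s) ^ 2 * (t / ((t : ℝ) + 1) ^ 2) + C ^ 2 / (t * ((t : ℝ) + 1) ^ 2) =
      ((W / s) ^ 2 * t ^ 2 + C ^ 2) / (t * ((t : ℝ) + 1) ^ 2) := by
    field_simp
  rw [e, div_le_div_iff₀ (by positivity) (by positivity)]
  have h1 := mul_le_mul_of_nonneg_right hΛ (by positivity : (0 : ℝ) ≤ (t : ℝ) + 1)
  calc ((W / s) ^ 2 * t ^ 2 + C ^ 2) * ((t : ℝ) + 1) ≤
      1453 / 1000 * (t * ((t : ℝ) + 1)) * (t + 1) := h1
    _ = _ := by ring

end Pool.OS
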