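import Pool.Agent.Work.MP_46fa68_6.TwoClass

/-!
# MP_46fa68_co: two-class certificate on the link of a cell ⟹ excluded densities
-/

set_option autoImplicit false

open Finset Equiv

namespace Pool.OS

open Pool.JM

variable {n k' k m t M : ℕ} {p q r : Finset ℕ → ℝ} {W1 s11 s12 W2 s22 V C X : ℝ}

/-- product bound for `Q` (pairs: `s - 2`), `B` (pairs: `s`), cross `s` -/
def PC (N s : ℕ) (X : ℝ) : Prop :=
  ∀ Q B : Finset (Perm (Fin N)), (∀ σ ∈ Q, ∀ τ ∈ Q, s - 2 ≤ ag σ τ) →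
    (∀ σ ∈ Q, ∀ τ ∈ B, s ≤ ag σ τ) → (∀ σ ∈ B, ∀ τ ∈ B, s ≤ ag σ τ) →
    (Q.card : ℝ) * B.card ≤ X

theorem PC_of_PB {N s : ℕ} (h : PB N s X) : PC N s X := fun Q B _ h2 h3 => h Q B h2 h3

theorem PC_of_two (h : Two n M k' k p q r W1 s11 s12 W2 s22 V C) {s : ℕ} (hk' : k' ≤ n)
    (hk : k ≤ n) (e1 : n + 1 - k' = s - 2) (e2 : n + 1 - k = s)
    (h11 : 0 ≤ s11) (h12 : 0 < s12) (h22 : 0 ≤ s22) (hW1 : 0 ≤ W1) (hW2 : 0 ≤ W2) :
    PC (n + 1) s (W1 * W2 / s12 ^ 2 * (k.factorial : ℝ) ^ 2) := fun Q B a1 a2 a3 =>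
  h.prod hk' hk h11 h12 h22 hW1 hW2 Q B (by rw [e1]; exact a1) (by rw [e2]; exact a2)
    (by rw [e2]; exact a3)

theorem PC.mono {N s : ℕ} {X X' : ℝ} (h : PC N s X) (hX : X ≤ X') : PC N s X' :=
  fun Q B a1 a2 a3 => (h Q B a1 a2 a3).trans hX

theorem ag_ext {N : ℕ} (σ τ : Perm (Fin N)) : ag (ND.ext σ) (ND.ext τ) = ag σ τ + 1 := by
  unfold ag
  rw [ND.agr_ext]

theorem Qs_ag {N : ℕ} {A : Finset (Perm (Fin (N + 1)))} (hA : ∀ σ ∈ A, ∀ τ ∈ A, t ≤ ag σ τ) :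
    ∀ σ ∈ Qs A, ∀ τ ∈ Qs A, t - 1 ≤ ag σ τ := by
  intro σ hσ τ hτ
  have := hA _ (mem_filter.1 hσ).2 _ (mem_filter.1 hτ).2
  rw [ag_ext] at this
  omega

/-- the inequality at the cell `(0, 0)` -/
theorem Two.cell_zero (h : Two n M (m + 1) m p q r W1 s11 s12 W2 s22 V C) (hN : n + 1 = m + t)
    (hm : m + 1 ≤ n) (hm2 : 2 ≤ m) (h12 : 0 < s12) (hs22 : 0 ≤ s22) (hW2 : 0 ≤ W2)
    (hX : PC (n + 1) (t + 1) X)
    (A : Finset (Perm (Fin (n + 1 + 1)))) (hA : ∀ σ ∈ A, ∀ τ ∈ A, t ≤ ag σ τ)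
    (hQ : 0 < (Qs A).card)
    (hcond : 2 / (m : ℝ) *
      (s22 * ((C / s12) ^ 2 / (((Qs A).card : ℝ) / m.factorial)) + V) ≤ W2) :
    ∃ y : ℝ, 0 ≤ y ∧
      (A.card : ℝ) - (Qs A).card ≤ m * m.factorial * y + t * (X / (Qs A).card) ∧
      s12 ^ 2 * (m + 1) * ((Qs A).card / (m + 1).factorial) * y ≤
        (W1 - s11 * ((Qs A).card / (m + 1).factorial)) * (W2 - s22 * y) ∧
      0 ≤ W1 - s11 * (((Qs A).card : ℝ) / (m + 1).factorial) ∧ 0 ≤ W2 - s22 * y := by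
  have hF := fac_pos m
  have hf := fib A hA
  have hmt : n + 1 - m = t := by omega
  have hmt' : n + 1 - (m + 1) = t - 1 := by omega
  have hmn : m ≤ n := by omega
  have hm0 : (0 : ℝ) < m := by exact_mod_cast (show 0 < m by omega)
  have hq : (0 : ℝ) < ((Qs A).card : ℝ) := by exact_mod_cast hQ
  have hr : (0 : ℝ) ≤ 2 / (m : ℝ) := div_nonneg zero_le_two hm0.le
  have b2 := h.cross hmn h12 (Qs A) (B2 (Ws A)) (by
    rw [hmt]
    exact fun σ hσ τ hτ => hf.cross hσ (mem_filter.1 hτ).2.1)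
  have b2' := alg3 hq hF b2
  have hmain := h.main hm h12.le hW2 hr (Qs A) (B3 (Ws A)) (B2 (Ws A))
    (by rw [hmt']; exact Qs_ag hA)
    (by rw [hmt]; exact fun σ hσ τ hτ => hf.cross hσ (by have := (mem_filter.1 hτ).2; omega))
    (by rw [hmt]; exact fun σ hσ τ hτ => hf.cross hσ (mem_filter.1 hτ).2.1)
    (by rw [hmt]; exact fun σ hσ τ hτ => hf.three (mem_filter.1 hσ).2
          (by have := (mem_filter.1 hτ).2; omega))
    (by rw [hmt]; exact fun σ hσ τ hτ => hf.three (mem_filter.1 hσ).2 (mem_filter.1 hτ).2.1)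
    (by
      rw [disjoint_left]
      intro σ h1 h2
      have h3 := (mem_filter.1 h1).2
      have h4 := (mem_filter.1 h2).2.2
      omega) hQ
    (by
      refine le_trans ?_ hcond
      refine mul_le_mul_of_nonneg_left ?_ hr
      have := mul_le_mul_of_nonneg_left b2' hs22
      linarith)
  have bp := hX (Qs A) (Bp m (Ws A))
    (by
      have : t + 1 - 2 = t - 1 := by omega
      rw [this]
      exact Qs_ag hA)
    (fun σ hσ τ hτ => hf.cross_big hN hσ (mem_filter.1 hτ).2)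
    (fun σ hσ τ hτ => hf.self_big hN hm2 (mem_filter.1 hσ).2 (mem_filter.1 hτ).2)
  have h1 : (A.card : ℝ) = (Qs A).card + ((∑ π, (Ws A π).card : ℕ) : ℝ) := by
    exact_mod_cast card_eq A
  have h2 : ((∑ π, (Ws A π).card : ℕ) : ℝ) ≤
      m * ((B3 (Ws A)).card : ℝ) + 2 * (B2 (Ws A)).card + t * (Bp m (Ws A)).card := by
    exact_mod_cast sum_marks hN
  have h4 : ((Bp m (Ws A)).card : ℝ) ≤ X / (Qs A).card := by
    rw [le_div_iff₀ hq]
    linarith
  have h5 := mul_le_mul_of_nonneg_left h4 (Nat.cast_nonneg (α := ℝ) t)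
  have hb3 : (0 : ℝ) ≤ ((B3 (Ws A)).card : ℝ) := Nat.cast_nonneg _
  have hb2 : (0 : ℝ) ≤ ((B2 (Ws A)).card : ℝ) := Nat.cast_nonneg _
  refine ⟨(((B3 (Ws A)).card : ℝ) + 2 / m * (B2 (Ws A)).card) / m.factorial,
    div_nonneg (add_nonneg hb3 (mul_nonneg hr hb2)) hF.le, ?_,
    hmain.1, hmain.2.1, hmain.2.2⟩
  rw [h1]
  generalize ((B3 (Ws A)).card : ℝ) = x3 at h2 ⊢
  generalize ((B2 (Ws A)).card : ℝ) = x2 at h2 ⊢
  have h3 : (m : ℝ) * m.factorial * ((x3 + 2 / m * x2) / m.factorial) = m * x3 + 2 * x2 := by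
    field_simp
  rw [h3]
  linarith

/-- the same at any cell -/
theorem Two.cell (h : Two n M (m + 1) m p q r W1 s11 s12 W2 s22 V C) (hN : n + 1 = m + t)
    (hm : m + 1 ≤ n) (hm2 : 2 ≤ m) (h12 : 0 < s12) (hs22 : 0 ≤ s22) (hW2 : 0 ≤ W2)
    (hX : PC (n + 1) (t + 1) X)
    (A : Finset (Perm (Fin (n + 1 + 1)))) (hA : ∀ σ ∈ A, ∀ τ ∈ A, t ≤ ag σ τ)
    (i j : Fin (n + 1 + 1)) (hQ : 0 < (A.filter fun σ => σ i = j).card)
    (hcond : 2 / (m : ℝ) * (s22 * ((C / s12) ^ 2 /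
      (((A.filter fun σ => σ i = j).card : ℝ) / m.factorial)) + V) ≤ W2) :
    ∃ y : ℝ, 0 ≤ y ∧
      (A.card : ℝ) - (A.filter fun σ => σ i = j).card ≤
        m * m.factorial * y + t * (X / (A.filter fun σ => σ i = j).card) ∧
      s12 ^ 2 * (m + 1) * ((A.filter fun σ => σ i = j).card / (m + 1).factorial) * y ≤
        (W1 - s11 * ((A.filter fun σ => σ i = j).card / (m + 1).factorial)) * (W2 - s22 * y) ∧
      0 ≤ W1 - s11 * (((A.filter fun σ => σ i = j).card : ℝ) / (m + 1).factorial) ∧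
      0 ≤ W2 - s22 * y := by
  obtain ⟨A', h1, h2, h3⟩ := exists_move A i j
  have := h.cell_zero hN hm hm2 h12 hs22 hW2 hX A' (h3 t hA) (by rw [h2]; exact hQ)
    (by rw [h2]; exact hcond)
  rwa [h1, h2] at this

/-- no cell has a density in `[l, u]` -/
def Ex (n t : ℕ) (θ l u : ℝ) : Prop :=
  ∀ A : Finset (Perm (Fin n)), Pool.EG.TInt t A → θ * ((n - t).factorial : ℝ) ≤ (A.card : ℝ) →
    ∀ x y : Fin n, ¬ (l * A.card ≤ ((Pool.EG.thr A x y).card : ℝ) ∧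
      ((Pool.EG.thr A x y).card : ℝ) ≤ u * A.card)

/-- positive: the density `p` is excluded -/
noncomputable def Dt (m θ ε W1 s11 s12 W2 s22 p : ℝ) : ℝ :=
  s12 ^ 2 * (m + 1) * (p * θ) * ((1 - p - ε) * θ * ((m + 1) / m)) -
    (W1 - s11 * (p * θ)) * (W2 - s22 * ((1 - p - ε) * θ * ((m + 1) / m)))

theorem Dt_concave {m θ ε W1 s11 s12 W2 s22 p l u s : ℝ} (hm : 0 < m)
    (hs : s11 * s22 ≤ s12 ^ 2 * (m + 1)) (h0 : 0 ≤ s) (h1 : s ≤ 1)
    (hp : p = (1 - s) * l + s * u) :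
    (1 - s) * Dt m θ ε W1 s11 s12 W2 s22 l + s * Dt m θ ε W1 s11 s12 W2 s22 u ≤
      Dt m θ ε W1 s11 s12 W2 s22 p := by
  have e : Dt m θ ε W1 s11 s12 W2 s22 p -
      ((1 - s) * Dt m θ ε W1 s11 s12 W2 s22 l + s * Dt m θ ε W1 s11 s12 W2 s22 u) =
      (s * (1 - s)) * ((θ * (u - l)) ^ 2 * ((m + 1) / m)) * (s12 ^ 2 * (m + 1) - s11 * s22) := by
    rw [hp]
    unfold Dt
    ring
  have h2 : 0 ≤ (s * (1 - s)) * ((θ * (u - l)) ^ 2 * ((m + 1) / m)) *
      (s12 ^ 2 * (m + 1) - s11 * s22) := by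
    have h3 : 0 ≤ s * (1 - s) := mul_nonneg h0 (by linarith)
    have h4 : 0 ≤ s12 ^ 2 * (m + 1) - s11 * s22 := by linarith
    positivity
  linarith

/-- **two-class certificate ⟹ excluded densities** -/
theorem Two.excl (h : Two n M (m + 1) m p q r W1 s11 s12 W2 s22 V C) (hN : n + 1 = m + t)
    (hm : m + 1 ≤ n) (hm2 : 2 ≤ m) (h11 : 0 ≤ s11) (h12 : 0 < s12) (h22 : 0 ≤ s22) (hW2 : 0 ≤ W2)
    (hX : PC (n + 1) (t + 1) (X * ((m + 1).factorial : ℝ) ^ 2)) (hX0 : 0 ≤ X)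
    {θ ε l u : ℝ} (hθ : 0 < θ) (hl : 0 < l) (hε : t * X / (l * θ ^ 2) ≤ ε) (hu : u + ε ≤ 1)
    (hs : s11 * s22 ≤ s12 ^ 2 * ((m : ℝ) + 1))
    (hcond : 2 / (m : ℝ) * (s22 * ((C / s12) ^ 2 / (l * θ * (m + 1))) + V) ≤ W2)
    (hDl : 0 < Dt m θ ε W1 s11 s12 W2 s22 l) (hDu : 0 < Dt m θ ε W1 s11 s12 W2 s22 u) :
    Ex (n + 1 + 1) t θ l u := by
  rintro A hA hcard i j ⟨c1, c2⟩
  have hthr : EG.thr A i j = A.filter fun σ => σ i = j := rfl
  rw [hthr] at c1 c2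
  have hfm : (n + 1 + 1 - t).factorial = (m + 1).factorial := by
    congr 1
    omega
  rw [hfm] at hcard
  have hF := fac_pos m
  have hF' := fac_pos (m + 1)
  have hfac : (((m + 1).factorial : ℕ) : ℝ) = ((m : ℝ) + 1) * m.factorial := by
    rw [Nat.factorial_succ]
    push_cast
    ring
  have hm0 : (0 : ℝ) < m := by exact_mod_cast (show 0 < m by omega)
  have hA0 : (0 : ℝ) < (A.card : ℝ) := lt_of_lt_of_le (mul_pos hθ hF') hcard
  have hq : (0 : ℝ) < ((A.filter fun σ => σ i = j).card : ℝ) :=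
    lt_of_lt_of_le (mul_pos hl hA0) c1
  obtain ⟨y, hy0, hy1, hy2, hy3, hy4⟩ := h.cell hN hm hm2 h12 h22 hW2 hX A hA i j
    (by exact_mod_cast hq) (by
      refine le_trans ?_ hcond
      refine mul_le_mul_of_nonneg_left ?_ (div_nonneg zero_le_two hm0.le)
      have e1 : l * θ * (m + 1) ≤ ((A.filter fun σ => σ i = j).card : ℝ) / m.factorial := by
        rw [le_div_iff₀ hF]
        calc l * θ * (m + 1) * m.factorial = l * (θ * ((m + 1).factorial : ℝ)) := by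
              rw [hfac]; ring
          _ ≤ l * A.card := mul_le_mul_of_nonneg_left hcard hl.le
          _ ≤ _ := c1
      have e2 := div_le_div_of_nonneg_left (sq_nonneg (C / s12))
        (mul_pos (mul_pos hl hθ) (by linarith : (0 : ℝ) < m + 1)) e1
      have := mul_le_mul_of_nonneg_left e2 h22
      linarith)
  obtain ⟨a, ha⟩ : ∃ a : ℝ, a = (A.card : ℝ) := ⟨_, rfl⟩
  obtain ⟨b, hb⟩ : ∃ b : ℝ, b = ((A.filter fun σ => σ i = j).card : ℝ) := ⟨_, rfl⟩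
  obtain ⟨F, hFd⟩ : ∃ F : ℝ, F = (((m + 1).factorial : ℕ) : ℝ) := ⟨_, rfl⟩
  rw [← ha] at c1 c2 hcard hA0 hy1
  rw [← hb] at c1 c2 hq hy1 hy2 hy3
  rw [← hFd] at hcard hF' hfac hy1 hy2 hy3
  -- the density
  obtain ⟨d, hd⟩ : ∃ d, d = b / a := ⟨_, rfl⟩
  have hbd : b = d * a := by rw [hd, div_mul_cancel₀ _ hA0.ne']
  have hld : l ≤ d := by rw [hd, le_div_iff₀ hA0]; exact c1
  have hdu : d ≤ u := by rw [hd, div_le_iff₀ hA0]; exact c2
  have hd0 : 0 < d := hl.trans_le hld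
  -- the two monotone variables
  have hx : d * θ ≤ b / F := by
    rw [le_div_iff₀ hF', hbd]
    calc d * θ * F = d * (θ * F) := by ring
      _ ≤ _ := mul_le_mul_of_nonneg_left hcard hd0.le
  have hv0 : 0 ≤ 1 - d - ε := by linarith
  have hv : (1 - d - ε) * θ * ((m + 1) / m) ≤ y := by
    have g1 : t * (X * F ^ 2 / b) ≤ ε * a := by
      have g2 : F ^ 2 ≤ (a / θ) ^ 2 := by
        refine pow_le_pow_left₀ hF'.le ?_ 2
        rw [le_div_iff₀ hθ]
        linarith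
      have g3 : t * (X * F ^ 2 / b) ≤ t * (X * (a / θ) ^ 2 / (l * a)) := by
        refine mul_le_mul_of_nonneg_left ?_ (Nat.cast_nonneg _)
        calc X * F ^ 2 / b ≤ X * (a / θ) ^ 2 / b :=
              div_le_div_of_nonneg_right (mul_le_mul_of_nonneg_left g2 hX0) hq.le
          _ ≤ _ := div_le_div_of_nonneg_left (by positivity) (mul_pos hl hA0) c1
      have g4 : t * (X * (a / θ) ^ 2 / (l * a)) = t * X / (l * θ ^ 2) * a := by
        field_simp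
      rw [g4] at g3
      exact g3.trans (mul_le_mul_of_nonneg_right hε hA0.le)
    have g5 : (1 - d - ε) * a ≤ m * m.factorial * y := by
      have : (1 - d) * a = a - b := by rw [hbd]; ring
      have g6 : (1 - d - ε) * a = (1 - d) * a - ε * a := by ring
      rw [g6, this]
      linarith
    have g7 : (1 - d - ε) * (θ * F) ≤ m * m.factorial * y :=
      (mul_le_mul_of_nonneg_left hcard hv0).trans g5
    rw [hfac] at g7
    have g8 : (1 - d - ε) * (θ * (((m : ℝ) + 1) * m.factorial)) =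
        (m * m.factorial) * ((1 - d - ε) * θ * ((m + 1) / m)) := by
      field_simp
    rw [g8] at g7
    exact le_of_mul_le_mul_left g7 (mul_pos hm0 hF)
  -- the inequality at the density `d`
  have hDd : Dt m θ ε W1 s11 s12 W2 s22 d ≤ 0 := by
    unfold Dt
    obtain ⟨v, hvd⟩ : ∃ v, v = (1 - d - ε) * θ * ((m + 1) / (m : ℝ)) := ⟨_, rfl⟩
    rw [← hvd] at hv ⊢
    have hv0' : 0 ≤ v := by rw [hvd]; positivity
    have hx0 : 0 ≤ d * θ := by positivity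
    have f1 : W1 - s11 * (b / F) ≤ W1 - s11 * (d * θ) := by
      have := mul_le_mul_of_nonneg_left hx h11
      linarith
    have f2 : W2 - s22 * y ≤ W2 - s22 * v := by
      have := mul_le_mul_of_nonneg_left hv h22
      linarith
    have f3 : s12 ^ 2 * (m + 1) * (d * θ) * v ≤ s12 ^ 2 * (m + 1) * (b / F) * y := by
      have g1 : (d * θ) * v ≤ (b / F) * y := mul_le_mul hx hv hv0' (hx0.trans hx)
      have g2 : 0 ≤ s12 ^ 2 * ((m : ℝ) + 1) := by positivity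
      have := mul_le_mul_of_nonneg_left g1 g2
      linarith
    have f4 : (W1 - s11 * (b / F)) * (W2 - s22 * y) ≤ (W1 - s11 * (d * θ)) * (W2 - s22 * v) :=
      mul_le_mul f1 f2 hy4 (hy3.trans f1)
    linarith
  -- concavity
  rcases eq_or_lt_of_le (hld.trans hdu) with h6 | h6
  · have : d = l := le_antisymm (by rw [h6]; exact hdu) hld
    rw [this] at hDd
    linarith
  · obtain ⟨s, hs'⟩ : ∃ s, s = (d - l) / (u - l) := ⟨_, rfl⟩
    have hs0 : 0 ≤ s := by rw [hs']; exact div_nonneg (by linarith) (by linarith)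
    have hs1 : s ≤ 1 := by rw [hs', div_le_one (by linarith)]; linarith
    have hds : d = (1 - s) * l + s * u := by
      have : s * (u - l) = d - l := by rw [hs', div_mul_cancel₀]; linarith
      linarith
    have h7 := Dt_concave (θ := θ) (ε := ε) (W1 := W1) (s11 := s11) (s12 := s12) (W2 := W2)
      (s22 := s22) hm0 hs hs0 hs1 hds
    have h8 : 0 < (1 - s) * Dt m θ ε W1 s11 s12 W2 s22 l + s * Dt m θ ε W1 s11 s12 W2 s22 u := by
      rcases eq_or_lt_of_le hs0 with h9 | h9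
      · rw [← h9]
        linarith
      · have e1 := mul_pos h9 hDu
        have e2 := mul_nonneg (sub_nonneg.2 hs1) hDl.le
        linarith
    linarith

end Pool.OS
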